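import Pool.Agent.H46.CH.UT
import Pool.Agent.H8.VR.TT

/-!
# Row UG: upper bound for grammars
-/

set_option autoImplicit false

namespace Pool.Agent.H8.CH

open Classical Pool.Agent.H8.VR Pool.Agent.H69.VR Pool.Agent.H46.CH
open Pool.Agent.H8.JS (NTM Cfg Mv lang num)

theorem foldl_lt (x : List Bool) : ∀ a : ℕ,
    x.foldl (fun n b => 2 * n + b.toNat) a < (a + 1) * 2 ^ x.length := by
  induction x with
  | nil => intro a; simp
  | cons b x ih =>
    intro a
    have h := ih (2 * a + b.toNat)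
    have hb : b.toNat ≤ 1 := Bool.toNat_le b
    rw [List.foldl_cons, List.length_cons, pow_succ]
    refine lt_of_lt_of_le h ?_
    calc (2 * a + b.toNat + 1) * 2 ^ x.length ≤ (2 * (a + 1)) * 2 ^ x.length :=
          Nat.mul_le_mul_right _ (by omega)
      _ = (a + 1) * (2 ^ x.length * 2) := by ring

theorem num_lt (x : List Bool) : num x < 2 ^ (x.length + 1) := by
  have h := foldl_lt x 1
  rw [pow_succ, mul_comm]
  exact h

theorem foldl_pos (x : List Bool) : ∀ a : ℕ, 0 < a →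
    0 < x.foldl (fun n b => 2 * n + b.toNat) a := by
  induction x with
  | nil => intro a h; exact h
  | cons b x ih => intro a h; exact ih (2 * a + b.toNat) (by omega)

theorem num_pos' (x : List Bool) : 0 < num x := foldl_pos x 1 one_pos

section
variable {N Q L T O C : Type} [Fintype Q] [Fintype L] [Fintype T] [Fintype C]

theorem lstep_tot (S : Sg N Q L T O) (K : Cp C) (o : O) (q : Q) (l : L)
    (m : Ix Q L T C × T → ℕ) (c c' : Ix Q L T C → ℕ) (h : LStep S K o q l m c c') :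
    tot c' = tot c + 1 ∧ ∀ p, m p ≤ tot c := by
  obtain ⟨-, h2, -, h4⟩ := h
  have e1 : ∑ p, m p = tot c := by
    rw [Fintype.sum_prod_type]
    exact Finset.sum_congr rfl fun σ _ => h2 σ
  refine ⟨?_, fun p => ?_⟩
  · have e2 : tot c' = (∑ σ, fs (fun p => (S.f o p.1.1, (up K (q, (l, fun _ => K.cp 0)) p).2) = σ) m)
        + ∑ σ : Ix Q L T C, ind (σ = (S.g o q, (nw S K (q, (l, fun _ => K.cp 0)) m).2)) := by
      unfold tot
      rw [← Finset.sum_add_distrib]
      refine Finset.sum_congr rfl fun σ _ => ?_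
      rw [h4 σ, ind_congr (eq_comm (a := σ))]
    rw [e2, sum_ind, ← e1]
    congr 1
    exact sum_fs_fiber (fun p : Ix Q L T C × T =>
      ((S.f o p.1.1, (up K (q, (l, fun _ => K.cp 0)) p).2) : Ix Q L T C)) m
  · rw [← e1]
    exact Finset.single_le_sum (f := m) (fun _ _ => Nat.zero_le _) (Finset.mem_univ p)

/-- the sources of the relations -/
def ugs (S : Sg N Q L T O) (s₀ : N) : N ⊕ (O × Q × L) ⊕ Unit → Option (Option N)
  | .inl _ => none
  | .inr (.inl x) => some (some (S.s x.1))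
  | .inr (.inr _) => some (some s₀)

/-- the targets of the relations -/
def ugt (S : Sg N Q L T O) : N ⊕ (O × Q × L) ⊕ Unit → Option (Option N)
  | .inl s => some (some s)
  | .inr (.inl x) => some (some (S.u x.1))
  | .inr (.inr _) => some none

/-- the relations -/
def ugP (S : Sg N Q L T O) (K : Cp C) (Ok : St L T C → Prop) : N ⊕ (O × Q × L) ⊕ Unit →
    (Ix Q L T C ⊕ (Ix Q L T C × T) ⊕ Ix Q L T C ⊕ Unit → ℕ) → Prop
  | .inl s, v => Ptc S K s (fun σ => v (.inr (.inr (.inl σ))))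
  | .inr (.inl x), v => LStep S K x.1 x.2.1 x.2.2 (fun p => v (.inr (.inl p)))
      (fun σ => v (.inl σ)) (fun σ => v (.inr (.inr (.inl σ))))
  | .inr (.inr _), v => tot (fun σ => v (.inl σ)) = v (.inr (.inr (.inr ()))) ∧
      ∀ σ, v (.inl σ) ≠ 0 → Ok σ.2

theorem au_lr (S : Sg N Q L T O) (K : Cp C) (Ok : St L T C → Prop) (s₀ : N) (M n : ℕ)
    (z : Option (Option N)) (v : Ix Q L T C → ℕ)
    (h : AuR (κ := Ix Q L T C × T) (ugs S s₀) (ugt S) none (ugP S K Ok) M n z v) :
    (∀ s, z = some (some s) → LR S K s v) ∧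
    (z = some none → ∃ c, LR S K s₀ c ∧ tot c = n ∧ ∀ σ, c σ ≠ 0 → Ok σ.2) := by
  induction h with
  | ini v hv => exact ⟨fun s h => by simp at h, fun h => by simp at h⟩
  | st e v u v' h hu hv hP ih =>
    rcases e with s | x | y
    · refine ⟨fun s' h' => ?_, fun h' => by simp [ugt] at h'⟩
      simp only [ugt, Option.some.injEq] at h'
      subst h'
      exact LR.pt s v' hP
    · refine ⟨fun s' h' => ?_, fun h' => by simp [ugt] at h'⟩
      simp only [ugt, Option.some.injEq] at h'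
      subst h'
      exact LR.st x.1 x.2.1 x.2.2 u v v' (ih.1 _ rfl) hP
    · refine ⟨fun s' h' => by simp [ugt] at h', fun _ => ?_⟩
      exact ⟨v, ih.1 _ rfl, hP.1, hP.2⟩

theorem lr_au (S : Sg N Q L T O) (K : Cp C) (Ok : St L T C → Prop) (s₀ : N) (M n : ℕ)
    (s : N) (c : Ix Q L T C → ℕ) (h : LR S K s c) : tot c < M →
    AuR (κ := Ix Q L T C × T) (ugs S s₀) (ugt S) none (ugP S K Ok) M n (some (some s)) c := by
  induction h with
  | pt s c h =>
    intro hM
    have h0 : 0 < M := by omega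
    exact AuR.st (src := ugs S s₀) (tgt := ugt S) (P := ugP S K Ok) (.inl s) (fun _ => 0)
      (fun _ => 0) c (AuR.ini _ fun _ => h0) (fun _ => h0)
      (fun σ => lt_of_le_of_lt (le_tot' c σ) hM) h
  | st o q l m c c' h h' ih =>
    intro hM
    obtain ⟨h1, h2⟩ := lstep_tot S K o q l m c c' h'
    exact AuR.st (src := ugs S s₀) (tgt := ugt S) (P := ugP S K Ok) (.inr (.inl (o, q, l))) c m c'
      (ih (by omega)) (fun p => lt_of_le_of_lt (h2 p) (by omega))
      (fun σ => lt_of_le_of_lt (le_tot' c' σ) hM) h'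

end

theorem pf_UG (hN2 : T_N2) (hA : T_LRA) (hB : T_LRB) (hMM : T_MM) (_hTT : T_TT) (hRL : T_RL)
    (hRE : T_RE) (hAU : T_AU) : T_UG := by
  intro N Q _ _ G hL hT m s₀ φ
  obtain ⟨L, T, C, O, _, _, _, _, _, _, S, K, Ok, hO, hn⟩ := hN2 N Q G m s₀ φ
  have hSL : SLin S := by
    intro o o' h
    obtain ⟨p, hp, e1, e2, e3, -⟩ := hO o
    obtain ⟨p', hp', e1', e2', e3', -⟩ := hO o'
    exact hL p hp p' hp' (by rw [← e3', ← e2]; exact h)
  have hST : STriv S := by
    intro o x y hx hy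
    obtain ⟨p, hp, e1, e2, e3, e4, e5, e6⟩ := hO o
    rw [e6]
    exact hT p hp x y hx hy
  have key := hAU (Option (Option N)) (Ix Q L T C) (Ix Q L T C × T) (N ⊕ (O × Q × L) ⊕ Unit)
    (ugs S s₀) (ugt S) none (some none) (ugP S K Ok) (by
      rintro (s | x | y)
      · exact (hRE N Q L T O C S K).1 s
      · exact hRL N Q L T O C S K x.1 x.2.1 x.2.2
      · exact (hRE N Q L T O C S K).2 Ok)
  have e : {x : List Bool | ∃ v, AuR (κ := Ix Q L T C × T) (ugs S s₀) (ugt S) none (ugP S K Ok)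
      (2 ^ (x.length + 1)) (num x) (some none) v} = lang (specG G m s₀ φ) := by
    ext x
    simp only [lang, Set.mem_ofPred_eq]
    rw [hn (num x), hMM N Q L T O C S K s₀ Ok (num x)]
    constructor
    · rintro ⟨v, hv⟩
      obtain ⟨c, h1, h2, h3⟩ := (au_lr S K Ok s₀ _ _ _ v hv).2 rfl
      exact ⟨num_pos' x, c, hB N Q L T O C S K hST s₀ c h1, h2, h3⟩
    · rintro ⟨-, c, h1, h2, h3⟩
      have h4 := hA N Q L T O C S K hSL s₀ c h1
      have h5 := num_lt x
      refine ⟨fun _ => 0, ?_⟩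
      have h0 : 0 < 2 ^ (x.length + 1) := by positivity
      exact AuR.st (src := ugs S s₀) (tgt := ugt S) (P := ugP S K Ok) (.inr (.inr ())) c
        (fun _ => 0) (fun _ => 0) (lr_au S K Ok s₀ _ _ s₀ c h4 (by omega)) (fun _ => h0)
        (fun _ => h0) ⟨h2, h3⟩
  rw [← e]
  exact key

end Pool.Agent.H8.CH
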