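import Pool.Agent.H46.CH.AT
import Pool.Agent.H8.VR.StepL

/-!
# Tools for the unions with extra elements
-/

set_option autoImplicit false

namespace Pool.Agent.H8.CH

open Classical Pool.Agent.H8.VR Pool.Agent.H46.CH

section
variable {A B ι : Type} [Fintype A] [Fintype B] [Fintype ι]

theorem num_sum (P : A ⊕ B → Prop) :
    num P = num (fun a => P (Sum.inl a)) + num fun b => P (Sum.inr b) := by
  unfold num
  simp only [Finset.card_filter]
  exact Fintype.sum_sum_type _

theorem num_sub {p : A → Prop} [Fintype {a // p a}] (P : A → Prop) :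
    num (fun x : {a // p a} => P x.1) = num fun a => p a ∧ P a := by
  unfold num
  rw [← Finset.card_image_of_injective _ Subtype.val_injective]
  congr 1
  ext b
  simp only [Finset.mem_filter, Finset.mem_univ, true_and, Finset.mem_image]
  constructor
  · rintro ⟨a, h1, rfl⟩
    exact ⟨a.2, h1⟩
  · rintro ⟨h1, h2⟩
    exact ⟨⟨b, h1⟩, h2, rfl⟩

theorem num_nil {P : A → Prop} (h : ∀ a, ¬ P a) : num P = 0 := by
  by_contra h'
  obtain ⟨a, ha⟩ := num_pos h'
  exact h a ha

theorem num_ne {P : A → Prop} {a : A} (h : P a) : num P ≠ 0 := by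
  unfold num
  rw [Ne, Finset.card_eq_zero]
  intro h'
  have : a ∈ Finset.univ.filter P := by simp [h]
  rw [h'] at this
  simp at this

theorem num_split (E : Set A) (P : A → Prop) :
    num P = num (fun a => a ∉ E ∧ P a) + num fun a => a ∈ E ∧ P a := by
  unfold num
  rw [← Finset.card_union_of_disjoint]
  · congr 1
    ext a
    simp only [Finset.mem_filter, Finset.mem_univ, true_and, Finset.mem_union]
    tauto
  · rw [Finset.disjoint_left]
    intro a ha hb
    simp only [Finset.mem_filter, Finset.mem_univ, true_and] at ha hb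
    exact ha.1 hb.1

theorem num_dvd (t : A → ι) (E : Set A) (d : ℕ) (h : ∀ σ, d ∣ num fun a => a ∈ E ∧ t a = σ)
    (R : A → Prop) (R' : ι → Prop) (hR : ∀ a ∈ E, (R a ↔ R' (t a))) :
    d ∣ num fun a => a ∈ E ∧ R a := by
  have e : (num fun a => a ∈ E ∧ R a) = num fun a => a ∈ E ∧ R' (t a) :=
    num_congr fun a => and_congr_right fun ha => hR a ha
  rw [e, num_fib (fun a => a ∈ E) t R']
  exact Finset.dvd_sum fun σ _ => h σ

end

section
variable {N Q L T O C : Type} [Fintype Q] [Fintype L] [Fintype T] [Fintype C]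

theorem kc_eq {A : Type} [Fintype A] (b : Ix Q L T C → ℕ) (Y : A → Prop) (u : A → Ix Q L T C)
    (col : A → Q) (lam : A → L) (hb : ∀ σ, b σ = num fun y => Y y ∧ u y = σ)
    (hu : ∀ y, Y y → (u y).1 = col y ∧ (u y).2.1 = lam y) (κ : Q × L) :
    kc b κ = num fun y => Y y ∧ (col y, lam y) = κ := by
  unfold kc
  rw [funext hb, ← num_fib Y u (fun σ => (σ.1, σ.2.1) = κ)]
  refine num_congr fun y => and_congr_right fun hy => ?_
  rw [(hu y hy).1, (hu y hy).2]

omit [Fintype C] in
theorem ofs_eq [Nonempty T] [Fintype O] (W : Pm N Q L T O C) (o : O) (s : Bool)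
    (k : Q × L → ℕ) (κ : Q × L) (z : L × T) :
    W.ofs (fun φ => if φ.1 = o ∧ φ.2.1 = s then k φ.2.2 else 0) κ z =
      fs (fun κ' : Q × L => κ'.2 = z.1 ∧ W.sl κ (o, s, κ') = z.2) k := by
  unfold Pm.ofs fs
  rw [Fintype.sum_prod_type, Finset.sum_eq_single o, Fintype.sum_prod_type,
    Finset.sum_eq_single s, Finset.sum_filter]
  · refine Finset.sum_congr rfl fun κ' _ => ?_
    simp only [and_self, if_true]
    by_cases h : κ'.2 = z.1 ∧ W.sl κ (o, s, κ') = z.2
    · rw [if_pos h, if_pos h]
    · rw [if_neg h, if_neg h]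
  · intro s' _ hs'
    refine Finset.sum_eq_zero fun κ' _ => ?_
    simp only [hs', and_false, if_false, ite_self]
  · intro h
    exact absurd (Finset.mem_univ _) h
  · intro o' _ ho'
    refine Finset.sum_eq_zero fun κ' _ => ?_
    simp only [ho', false_and, if_false, ite_self]
  · intro h
    exact absurd (Finset.mem_univ _) h

omit [Fintype Q] [Fintype L] [Fintype C] in
theorem sl_spec [Nonempty T] (W : Pm N Q L T O C) (κ : Q × L) (φ : Fk Q L O)
    (h : ∃ θ, W.slt κ φ θ) : W.slt κ φ (W.sl κ φ) := by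
  unfold Pm.sl
  rw [dif_pos h]
  exact h.choose_spec

end

end Pool.Agent.H8.CH
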