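import Pool.Agent.H46.CH.AT

/-!
# Row DC: double counting
-/

set_option autoImplicit false

namespace Pool.Agent.H8.CH

open Classical Pool.Agent.H8.VR Pool.Agent.H46.CH

theorem dc_bad {N Q L T O C : Type} [Fintype T] (W : Pm N Q L T O C) {A : Type}
    [Fintype A] (lam : A → L) (th : A → A → T) (col : A → Q)
    (ha : ∀ a z, W.K.cp (kn lam th Set.univ a z) = W.af (col a) z) (l : L) (Y : Finset A) (x : A)
    (hY : ∀ y ∈ Y, lam y = l) (hx : x ∉ Y) :
    (Y.filter fun y => ¬ W.sat (col x) (l, th x y)).card ≤ W.k₀ * Fintype.card T := by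
  rw [Finset.card_eq_sum_card_fiberwise (f := th x) (t := Finset.univ)
    (fun _ _ => Finset.mem_coe.2 (Finset.mem_univ _))]
  have h1 : ∀ θ ∈ (Finset.univ : Finset T),
      ((Y.filter fun y => ¬ W.sat (col x) (l, th x y)).filter fun y => th x y = θ).card ≤ W.k₀ := by
    intro θ _
    by_cases hs : W.sat (col x) (l, θ)
    · rw [Finset.card_eq_zero.2]
      · exact Nat.zero_le _
      · rw [Finset.eq_empty_iff_forall_notMem]
        intro y hy
        simp only [Finset.mem_filter] at hy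
        obtain ⟨⟨-, h2⟩, rfl⟩ := hy
        exact h2 hs
    · have h2 : kn lam th Set.univ x (l, θ) < W.k₀ := by
        by_contra hc
        exact hs ⟨_, not_lt.1 hc, ha x (l, θ)⟩
      refine le_trans (Finset.card_le_card ?_) h2.le
      intro y hy
      simp only [Finset.mem_filter] at hy
      obtain ⟨⟨h3, -⟩, h4⟩ := hy
      simp only [Finset.mem_filter, Finset.mem_univ, true_and, Set.mem_univ]
      exact ⟨fun e => hx (e ▸ h3), hY y h3, h4⟩
  refine (Finset.sum_le_sum h1).trans ?_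
  rw [Finset.sum_const, Finset.card_univ, smul_eq_mul, mul_comm]

theorem pf_DC : Pool.Agent.H46.CH.T_DC := by
  intro N Q L T O C _ W A _ lam th col hS ha κ κ' X Y hX hY hd hX' hY'
  by_contra hc
  have hor : ∀ x ∈ X, ∀ y ∈ Y, ¬ W.sat κ.1 (κ'.2, th x y) ∨ ¬ W.sat κ'.1 (κ.2, W.S.sw (th x y)) := by
    intro x hx y hy
    by_contra h
    rw [not_or, not_not, not_not] at h
    exact hc ⟨x, hx, y, hy, h⟩
  set Z := W.k₀ * Fintype.card T with hZ
  have hH := W.hH
  rw [← hZ] at hH
  have b1 : ∀ x ∈ X, (Y.filter fun y => ¬ W.sat κ.1 (κ'.2, th x y)).card ≤ Z := by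
    intro x hx
    have e : κ.1 = col x := by rw [← hX x hx]
    rw [e]
    exact dc_bad W lam th col ha κ'.2 Y x (fun y hy => by rw [← hY y hy])
      (Finset.disjoint_left.1 hd hx)
  have b2 : ∀ y ∈ Y, (X.filter fun x => ¬ W.sat κ'.1 (κ.2, W.S.sw (th x y))).card ≤ Z := by
    intro y hy
    have hyX : y ∉ X := fun h => Finset.disjoint_left.1 hd h hy
    have e : κ'.1 = col y := by rw [← hY y hy]
    rw [e]
    refine le_trans (le_of_eq ?_) (dc_bad W lam th col ha κ.2 X y (fun x hx => by rw [← hX x hx]) hyX)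
    congr 1
    refine Finset.filter_congr fun x hx => ?_
    rw [hS x y fun e => hyX (e ▸ hx)]
  have h1 : X.card * Y.card ≤ ∑ x ∈ X, ∑ y ∈ Y, ((if ¬ W.sat κ.1 (κ'.2, th x y) then 1 else 0) +
      if ¬ W.sat κ'.1 (κ.2, W.S.sw (th x y)) then 1 else 0) := by
    calc X.card * Y.card = ∑ x ∈ X, ∑ y ∈ Y, 1 := by simp
      _ ≤ _ := Finset.sum_le_sum fun x hx => Finset.sum_le_sum fun y hy => by
        rcases hor x hx y hy with h | h
        · rw [if_pos h]; exact Nat.le_add_right _ _
        · rw [if_pos h]; exact Nat.le_add_left _ _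
  have h2 : ∑ x ∈ X, ∑ y ∈ Y, ((if ¬ W.sat κ.1 (κ'.2, th x y) then 1 else 0) +
      if ¬ W.sat κ'.1 (κ.2, W.S.sw (th x y)) then 1 else 0) ≤ X.card * Z + Y.card * Z := by
    simp only [Finset.sum_add_distrib]
    refine Nat.add_le_add ?_ ?_
    · refine (Finset.sum_le_sum fun x hx => ?_).trans (by rw [Finset.sum_const, smul_eq_mul])
      rw [← Finset.card_filter]
      exact b1 x hx
    · rw [Finset.sum_comm]
      refine (Finset.sum_le_sum fun y hy => ?_).trans (by rw [Finset.sum_const, smul_eq_mul])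
      rw [← Finset.card_filter]
      exact b2 y hy
  have h3 := h1.trans h2
  have h4 : 2 * Z + 2 ≤ X.card := hH.trans hX'
  have h5 : 2 * Z + 2 ≤ Y.card := hH.trans hY'
  nlinarith

end Pool.Agent.H8.CH
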