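import Pool.Agent.H46.CH.AT
import Pool.Agent.H33.VR.Cf

/-!
# Row XJ: the steps of a union
-/

set_option autoImplicit false

namespace Pool.Agent.H8.CH

open Classical Pool.Agent.H8.VR Pool.Agent.H46.CH

theorem pf_XJ : Pool.Agent.H46.CH.T_XJ := by
  intro N Q L T O C _ _ _ _ W A _ lam th col o X Y hS hd hal
  have key : ∀ (n : ℕ) (Y' Z : Set A), Y'.ncard = n → Disjoint Y' Z → Y' ∪ Z = Y →
      ∃ w, W.JR o (cf W.K lam th X (X ∪ Z) col) (cf W.K lam th Y' Y col) w
        (cf W.K lam th X (X ∪ Y) col) 0 (cf W.K lam th Y' (X ∪ Y) col) := by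
    intro n
    induction n with
    | zero =>
      intro Y' Z h1 h2 h3
      rw [Set.ncard_eq_zero (Set.toFinite Y')] at h1
      subst h1
      rw [Set.empty_union] at h3
      subst h3
      have e0 : ∀ V : Set A, cf W.K lam th ∅ V col = 0 := fun V =>
        funext fun σ => Pool.Agent.H33.VR.cf_empty W.K lam th V col σ
      rw [e0, e0]
      exact ⟨[], Pm.JR.nil _ _⟩
    | succ n ih =>
      intro Y' Z h1 h2 h3
      obtain ⟨z, hz⟩ : Y'.Nonempty := by
        rw [← Set.ncard_pos (Set.toFinite Y')]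
        omega
      have hzY : z ∈ Y := h3 ▸ Or.inl hz
      have hzX : z ∉ X := fun h => Set.disjoint_left.1 hd h hzY
      have hzZ : z ∉ Z := Set.disjoint_left.1 h2 hz
      have hzY' : z ∉ Y' \ {z} := fun h => h.2 rfl
      have e1 : insert z (Y' \ {z}) = Y' := Set.insert_sdiff_self_of_mem hz
      have e2 : Y' \ {z} ∪ insert z Z = Y := by
        rw [Set.union_insert, ← Set.insert_union, e1, h3]
      have hXZ : Disjoint X Z := hd.mono_right (h3 ▸ Set.subset_union_right)
      have hXY' : Disjoint X (Y' \ {z}) :=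
        hd.mono_right ((Set.sdiff_subset).trans (h3 ▸ Set.subset_union_left))
      obtain ⟨w, hw⟩ := ih (Y' \ {z}) (insert z Z)
        (by rw [Set.ncard_sdiff_singleton_of_mem hz, h1, Nat.add_sub_cancel])
        (Set.disjoint_insert_right.2 ⟨hzY', h2.mono_left Set.sdiff_subset⟩) e2
      have st := step_lemma W.S W.K lam th hS X (Y' \ {z}) Z z hXY' hXZ hzX hzY' hzZ col o
        fun x hx => hal x hx z hzY
      have e3 : X ∪ Y' \ {z} ∪ insert z Z = X ∪ Y := by
        rw [Set.union_assoc, e2]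
      rw [e1, e2, e3] at st
      obtain ⟨s1, s2, s3, s4, s5⟩ := st
      have s6 : ∀ σ, ind ((col z, stt W.K lam th (X ∪ Y) z) = σ) =
          ind (σ = nw W.S W.K (col z, stt W.K lam th Y z) (mz W.K lam th X (X ∪ Z) col z)) := by
        intro σ
        have h4 := s5 σ
        unfold cf at h4
        rw [num_insert Z z hzZ] at h4
        omega
      refine ⟨⟨(col z, stt W.K lam th Y z), mz W.K lam th X (X ∪ Z) col z,
        cf W.K lam th X (X ∪ Z) col, cf W.K lam th Y' Y col⟩ :: w, ?_⟩
      have h5 := Pm.JR.cons (W := W) (o := o) ⟨(col z, stt W.K lam th Y z),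
        mz W.K lam th X (X ∪ Z) col z, cf W.K lam th X (X ∪ Z) col, cf W.K lam th Y' Y col⟩ w
        _ _ (fun σ => ind (σ = nw W.S W.K (col z, stt W.K lam th Y z)
          (mz W.K lam th X (X ∪ Z) col z))) _ _ _
        ⟨s1, s2, s3, s4, fun σ => (zero_add _).symm⟩ hw
      have e4 : (fun σ => ind (σ = nw W.S W.K (col z, stt W.K lam th Y z)
          (mz W.K lam th X (X ∪ Z) col z))) + cf W.K lam th (Y' \ {z}) (X ∪ Y) col =
          cf W.K lam th Y' (X ∪ Y) col := by
        funext σ
        rw [Pi.add_apply, ← s6 σ]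
        conv_rhs => rw [← e1]
        unfold cf
        rw [num_insert (Y' \ {z}) z hzY', add_comm]
      rw [e4] at h5
      exact h5
  obtain ⟨w, hw⟩ := key Y.ncard Y ∅ rfl (Set.disjoint_empty Y) (Set.union_empty Y)
  rw [Set.union_empty] at hw
  exact ⟨w, hw⟩

end Pool.Agent.H8.CH
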