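import Pool.Agent.H8.CH.XT0

/-!
# Row XL: unions with extra elements on the left
-/

set_option autoImplicit false

namespace Pool.Agent.H8.CH

open Classical Pool.Agent.H8.VR Pool.Agent.H46.CH

theorem pf_XL (hTR : T_TR) (hJC : T_JC) : Pool.Agent.H46.CH.T_XL := by
  intro N Q L T O C _ _ _ _ _ _ W o c U b a' e off hRX hRD hJG hP hs
  obtain ⟨A, _, lam, th, X, E, col, t, hS, hG, hEX, ht, hn, hE, hc, hU⟩ := hRX
  obtain ⟨B, _, lam', th', Y, E', col', u, hS', hG', hEY, hu, hn', -, hb, hU'⟩ := hRD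
  have hE' : ∀ y, y ∉ E' := by
    intro y hy
    have h1 := hU' (u y)
    exact num_ne (P := fun a => a ∈ E' ∧ u a = u y) (a := y) ⟨hy, rfl⟩ h1.symm
  have hb' : ∀ σ, b σ = num fun y => y ∈ Y ∧ u y = σ := by
    intro σ
    rw [hb σ]
    exact num_congr fun y => ⟨fun h => ⟨h.1, h.2.2⟩, fun h => ⟨h.1, hE' y, h.2⟩⟩
  obtain ⟨h, I, t', u', g1, g2, g3, g4, g5, g6, g7, g8⟩ := hJG {x : A // x ∈ X ∧ x ∉ E} {y : B // y ∈ Y}
    (fun x => t x.1) (fun y => u y.1)
    (fun σ => by rw [hc σ, num_sub (fun a => t a = σ)]; exact num_congr fun a => and_assoc.symm)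
    (fun σ => by rw [hb' σ, num_sub (fun a => u a = σ)])
  have hI : ∀ y, y ∈ I := by
    intro y
    by_contra hy
    exact num_ne (P := fun y' : {y : B // y ∈ Y} => y' ∉ I ∧ u y'.1 = u y.1) (a := y) ⟨hy, rfl⟩
      (g7 (u y.1)).symm
  -- the types between the two parts
  let hh : A → B → T := fun x y =>
    if hx : x ∈ X ∧ x ∉ E then (if hy : y ∈ Y then h ⟨x, hx⟩ ⟨y, hy⟩ else Classical.arbitrary T)
    else W.sl (col x, lam x) (o, true, col' y, lam' y)
  have hh1 : ∀ (x : A) (hx : x ∈ X ∧ x ∉ E) (y : B) (hy : y ∈ Y), hh x y = h ⟨x, hx⟩ ⟨y, hy⟩ := by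
    intro x hx y hy
    simp only [hh]
    rw [dif_pos hx, dif_pos hy]
  have hh2 : ∀ x ∈ E, ∀ y, hh x y = W.sl (col x, lam x) (o, true, col' y, lam' y) := by
    intro x hx y
    simp only [hh]
    rw [dif_neg fun h => h.2 hx]
  have hsl : ∀ x ∈ E, ∀ y ∈ Y, W.slt (col x, lam x) (o, true, col' y, lam' y)
      (W.sl (col x, lam x) (o, true, col' y, lam' y)) := by
    intro x hx y hy
    refine sl_spec W _ _ ?_
    have h1 : U (t x) ≠ 0 := by
      rw [hU]
      exact num_ne (a := x) ⟨hx, rfl⟩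
    have h2 : b (u y) ≠ 0 := by
      rw [hb']
      exact num_ne (a := y) ⟨hy, rfl⟩
    have h3 := hs (t x) (u y) h1 h2
    rw [(ht x (hEX hx)).1, (ht x (hEX hx)).2, (hu y hy).1, (hu y hy).2] at h3
    exact h3
  obtain ⟨th'', j1, j2, j3, j4⟩ := hJC N Q L T O W.S W.fid W.gid W.tr o A B lam th X col lam' th' Y
    col' hh hS hS' hG hG' (by
      intro x hx y hy
      by_cases hxE : x ∈ E
      · rw [hh2 x hxE]
        have := (hsl x hxE y hy).1
        simpa using this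
      · rw [hh1 x ⟨hx, hxE⟩ y hy]
        have := g1 ⟨x, hx, hxE⟩ ⟨y, hy⟩ (hI _)
        rw [(ht x hx).1, (hu y hy).1] at this
        exact this)
  let tA : A → Ix Q L T C := fun a => if ha : a ∈ X ∧ a ∉ E then t' ⟨a, ha⟩ else t a
  let uB : B → Ix Q L T C := fun y => if hy : y ∈ Y then u' ⟨y, hy⟩ else u y
  have tA1 : ∀ (a : A) (ha : a ∈ X ∧ a ∉ E), tA a = t' ⟨a, ha⟩ := fun a ha => dif_pos ha
  have tA2 : ∀ a ∈ E, tA a = t a := fun a ha => dif_neg fun h => h.2 ha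
  have uB1 : ∀ (y : B) (hy : y ∈ Y), uB y = u' ⟨y, hy⟩ := fun y hy => dif_pos hy
  have mX : ∀ x, (Sum.inl x : A ⊕ B) ∈ Sum.inl '' X ∪ Sum.inr '' Y ↔ x ∈ X := by
    intro x
    simp
  have mY : ∀ y, (Sum.inr y : A ⊕ B) ∈ Sum.inl '' X ∪ Sum.inr '' Y ↔ y ∈ Y := by
    intro y
    simp
  have mE : ∀ x, (Sum.inl x : A ⊕ B) ∈ Sum.inl '' E ↔ x ∈ E := by
    intro x
    simp
  have mE' : ∀ y, (Sum.inr y : A ⊕ B) ∉ Sum.inl '' E := by
    intro y
    simp
  refine ⟨A ⊕ B, inferInstance, Sum.elim lam lam', th'', Sum.inl '' X ∪ Sum.inr '' Y, Sum.inl '' E,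
    Sum.elim col col', Sum.elim tA uB, j1, j2, ?_, ?_, ?_, ?_, ?_, ?_⟩
  · rintro _ ⟨x, hx, rfl⟩
    exact Or.inl ⟨x, hEX hx, rfl⟩
  · rintro (x | y) hxy
    · rw [mX] at hxy
      simp only [Sum.elim_inl]
      by_cases hxE : x ∈ E
      · rw [tA2 x hxE]
        exact ht x hxy
      · rw [tA1 x ⟨hxy, hxE⟩, (g2 _).1, (g2 _).2]
        exact ht x hxy
    · rw [mY] at hxy
      simp only [Sum.elim_inr]
      rw [uB1 y hxy, (g3 _).1, (g3 _).2]
      exact hu y hxy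
  · rintro (x | y) hxy hxE z
    · rw [mX] at hxy
      rw [mE] at hxE
      rw [j3 x hxy z]
      simp only [Sum.elim_inl]
      rw [tA1 x ⟨hxy, hxE⟩]
      have h1 := g4 ⟨x, hxy, hxE⟩ z
      rw [(ht x hxy).1] at h1
      have h2 := h1 _ (hn x hxy hxE z)
      have e1 : (num fun y : {y : B // y ∈ Y} => y ∈ I ∧ (u y.1).2.1 = z.1 ∧
          h ⟨x, hxy, hxE⟩ y = z.2) = num fun y => y ∈ Y ∧ lam' y = z.1 ∧ hh x y = z.2 := by
        rw [← num_sub (p := fun y => y ∈ Y) (fun y => lam' y = z.1 ∧ hh x y = z.2)]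
        refine num_congr fun y => ?_
        rw [hh1 x ⟨hxy, hxE⟩ y.1 y.2, (hu y.1 y.2).2]
        exact ⟨fun h => h.2, fun h => ⟨hI y, h⟩⟩
      rw [e1] at h2
      exact h2
    · rw [mY] at hxy
      rw [j4 y hxy z]
      simp only [Sum.elim_inr]
      rw [uB1 y hxy]
      have h1 := g5 ⟨y, hxy⟩ (hI _) z
      rw [(hu y hxy).1] at h1
      -- the ordinary elements
      have e1 : (num fun x : {x : A // x ∈ X ∧ x ∉ E} => (t x.1).2.1 = z.1 ∧
          W.S.sw (h x ⟨y, hxy⟩) = z.2) =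
          num fun x => x ∉ E ∧ (x ∈ X ∧ lam x = z.1 ∧ W.S.sw (hh x y) = z.2) := by
        have e2 : (num fun x => x ∉ E ∧ (x ∈ X ∧ lam x = z.1 ∧ W.S.sw (hh x y) = z.2)) =
            num fun x => (x ∈ X ∧ x ∉ E) ∧ (lam x = z.1 ∧ W.S.sw (hh x y) = z.2) :=
          num_congr fun x => ⟨fun h => ⟨⟨h.2.1, h.1⟩, h.2.2⟩, fun h => ⟨h.1.2, h.1.1, h.2⟩⟩
        rw [e2, ← num_sub (p := fun x => x ∈ X ∧ x ∉ E)
          (fun x => lam x = z.1 ∧ W.S.sw (hh x y) = z.2)]
        refine num_congr fun x => ?_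
        rw [hh1 x.1 x.2 y hxy, (ht x.1 x.2.1).2]
      -- the extra elements
      have e3 : (num fun x => x ∈ E ∧ (x ∈ X ∧ lam x = z.1 ∧ W.S.sw (hh x y) = z.2)) =
          num fun x => x ∈ E ∧ (lam x = z.1 ∧
            W.S.sw (W.sl (col x, lam x) (o, true, col' y, lam' y)) = z.2) := by
        refine num_congr fun x => and_congr_right fun hx => ?_
        rw [hh2 x hx y]
        exact ⟨fun h => h.2, fun h => ⟨hEX hx, h⟩⟩
      obtain ⟨j, hj⟩ := num_dvd t E W.P (fun σ => by rw [← hU σ]; exact hP σ)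
        (fun x => lam x = z.1 ∧ W.S.sw (W.sl (col x, lam x) (o, true, col' y, lam' y)) = z.2)
        (fun σ => σ.2.1 = z.1 ∧ W.S.sw (W.sl (σ.1, σ.2.1) (o, true, col' y, lam' y)) = z.2)
        (fun x hx => by rw [(ht x (hEX hx)).1, (ht x (hEX hx)).2])
      have hj0 : j ≠ 0 → W.sat (col' y) z := by
        intro hj0
        have h3 : (num fun x => x ∈ E ∧ (lam x = z.1 ∧
            W.S.sw (W.sl (col x, lam x) (o, true, col' y, lam' y)) = z.2)) ≠ 0 := by
          rw [hj]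
          exact Nat.mul_ne_zero W.pos.ne' hj0
        obtain ⟨x, hx, hx1, hx2⟩ := num_pos h3
        have h4 := (hsl x hx y hxy).2.2
        simp only at h4
        rw [hx2, hx1] at h4
        exact h4
      have h2 := (hTR N Q L T O C W).2.2.2.1 _ _ _ _ j h1 hj0 _ (hn' y hxy (hE' y) z)
      rw [e1] at h2
      rw [num_split E (fun x => x ∈ X ∧ lam x = z.1 ∧ W.S.sw (hh x y) = z.2), e3, hj]
      exact h2
  · rintro _ ⟨x, hx, rfl⟩ z
    obtain ⟨n, hn1, hn2⟩ := hE x hx z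
    refine ⟨n, ?_, ?_⟩
    · simp only [Sum.elim_inl]
      rw [tA2 x hx]
      exact hn1
    · rw [j3 x (hEX hx) z, hn2]
      simp only [Sum.elim_inl, Pi.add_apply]
      rw [add_assoc]
      congr 2
      rw [ofs_eq W o true (kc b) (col x, lam x) z]
      have e1 : kc b = fun κ => num fun y => y ∈ Y ∧ (col' y, lam' y) = κ := by
        funext κ
        exact kc_eq b (fun y => y ∈ Y) u col' lam' hb' hu κ
      rw [e1, ← num_fib (fun y => y ∈ Y) (fun y => (col' y, lam' y))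
        (fun κ' : Q × L => κ'.2 = z.1 ∧ W.sl (col x, lam x) (o, true, κ') = z.2)]
      refine num_congr fun y => and_congr_right fun _ => ?_
      rw [hh2 x hx y]
  · intro σ
    rw [num_sum, Pi.add_apply, g6 σ, g8 σ]
    congr 1
    · rw [show (fun x : {x : A // x ∈ X ∧ x ∉ E} => t' x = σ) = fun x => tA x.1 = σ from
        funext fun x => by rw [tA1 x.1 x.2], num_sub (fun a => tA a = σ)]
      refine num_congr fun x => ?_
      rw [mX, mE]
      simp only [Sum.elim_inl]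
      exact and_assoc
    · have e1 : (num fun y : {y : B // y ∈ Y} => y ∈ I ∧ u' y = σ) =
          num fun y : {y : B // y ∈ Y} => uB y.1 = σ :=
        num_congr fun y => by
          rw [uB1 y.1 y.2]
          exact ⟨fun h => h.2, fun h => ⟨hI y, h⟩⟩
      rw [e1, num_sub (fun a => uB a = σ)]
      refine num_congr fun y => ?_
      rw [mY]
      simp only [Sum.elim_inr]
      exact ⟨fun h => ⟨h.1, mE' y, h.2⟩, fun h => ⟨h.1, h.2.2⟩⟩
  · intro σ
    rw [num_sum, hU σ]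
    have e1 : (num fun y : B => (Sum.inr y : A ⊕ B) ∈ Sum.inl '' E ∧
        Sum.elim tA uB (Sum.inr y) = σ) = 0 := num_nil fun y h => mE' y h.1
    rw [e1, add_zero]
    refine num_congr fun x => ?_
    rw [mE]
    refine and_congr_right fun hx => ?_
    simp only [Sum.elim_inl]
    rw [tA2 x hx]

end Pool.Agent.H8.CH
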