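import Pool.Agent.H8.CH.XT0

/-!
# Row XR: unions with extra elements on the right
-/

set_option autoImplicit false

namespace Pool.Agent.H8.CH

open Classical Pool.Agent.H8.VR Pool.Agent.H46.CH

theorem pf_XR (hTR : T_TR) (hJC : T_JC) : Pool.Agent.H46.CH.T_XR := by
  intro N Q L T O C _ _ _ _ _ _ W o a c U a' e off hRD hRX hJG hP hs
  obtain ⟨A, _, lam, th, X, E', col, t, hS, hG, hEX, ht, hn, -, hb, hU'⟩ := hRD
  obtain ⟨B, _, lam', th', Y, E, col', u, hS', hG', hEY, hu, hn', hE, hc, hU⟩ := hRX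
  have hE' : ∀ x, x ∉ E' := by
    intro x hx
    have h1 := hU' (t x)
    exact num_ne (P := fun a => a ∈ E' ∧ t a = t x) (a := x) ⟨hx, rfl⟩ h1.symm
  have hb' : ∀ σ, a σ = num fun x => x ∈ X ∧ t x = σ := by
    intro σ
    rw [hb σ]
    exact num_congr fun y => ⟨fun h => ⟨h.1, h.2.2⟩, fun h => ⟨h.1, hE' y, h.2⟩⟩
  obtain ⟨h, I, t', u', g1, g2, g3, g4, g5, g6, g7, g8⟩ := hJG {x : A // x ∈ X} {y : B // y ∈ Y ∧ y ∉ E}
    (fun x => t x.1) (fun y => u y.1)
    (fun σ => by rw [hb' σ, num_sub (fun a => t a = σ)])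
    (fun σ => by rw [hc σ, num_sub (fun a => u a = σ)]; exact num_congr fun a => and_assoc.symm)
  have hI : ∀ y, y ∈ I := by
    intro y
    by_contra hy
    exact num_ne (P := fun y' : {y : B // y ∈ Y ∧ y ∉ E} => y' ∉ I ∧ u y'.1 = u y.1) (a := y)
      ⟨hy, rfl⟩ (g7 (u y.1)).symm
  -- the types between the two parts
  let hh : A → B → T := fun x y =>
    if hy : y ∈ Y ∧ y ∉ E then (if hx : x ∈ X then h ⟨x, hx⟩ ⟨y, hy⟩ else Classical.arbitrary T)
    else W.S.sw (W.sl (col' y, lam' y) (o, false, col x, lam x))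
  have hh1 : ∀ (x : A) (hx : x ∈ X) (y : B) (hy : y ∈ Y ∧ y ∉ E), hh x y = h ⟨x, hx⟩ ⟨y, hy⟩ := by
    intro x hx y hy
    simp only [hh]
    rw [dif_pos hy, dif_pos hx]
  have hh2 : ∀ x, ∀ y ∈ E, hh x y = W.S.sw (W.sl (col' y, lam' y) (o, false, col x, lam x)) := by
    intro x y hy
    simp only [hh]
    rw [dif_neg fun h => h.2 hy]
  have hsl : ∀ x ∈ X, ∀ y ∈ E, W.slt (col' y, lam' y) (o, false, col x, lam x)
      (W.sl (col' y, lam' y) (o, false, col x, lam x)) := by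
    intro x hx y hy
    refine sl_spec W _ _ ?_
    have h1 : U (u y) ≠ 0 := by
      rw [hU]
      exact num_ne (a := y) ⟨hy, rfl⟩
    have h2 : a (t x) ≠ 0 := by
      rw [hb']
      exact num_ne (a := x) ⟨hx, rfl⟩
    have h3 := hs (u y) (t x) h1 h2
    rw [(ht x hx).1, (ht x hx).2, (hu y (hEY hy)).1, (hu y (hEY hy)).2] at h3
    exact h3
  obtain ⟨th'', j1, j2, j3, j4⟩ := hJC N Q L T O W.S W.fid W.gid W.tr o A B lam th X col lam' th' Y
    col' hh hS hS' hG hG' (by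
      intro x hx y hy
      by_cases hyE : y ∈ E
      · rw [hh2 x y hyE]
        have := (hsl x hx y hyE).1
        simpa using this
      · rw [hh1 x hx y ⟨hy, hyE⟩]
        have := g1 ⟨x, hx⟩ ⟨y, hy, hyE⟩ (hI _)
        rw [(ht x hx).1, (hu y hy).1] at this
        exact this)
  let tA : A → Ix Q L T C := fun a => if ha : a ∈ X then t' ⟨a, ha⟩ else t a
  let uB : B → Ix Q L T C := fun y => if hy : y ∈ Y ∧ y ∉ E then u' ⟨y, hy⟩ else u y
  have tA1 : ∀ (a : A) (ha : a ∈ X), tA a = t' ⟨a, ha⟩ := fun a ha => dif_pos ha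
  have uB1 : ∀ (y : B) (hy : y ∈ Y ∧ y ∉ E), uB y = u' ⟨y, hy⟩ := fun y hy => dif_pos hy
  have uB2 : ∀ y ∈ E, uB y = u y := fun y hy => dif_neg fun h => h.2 hy
  have mX : ∀ x, (Sum.inl x : A ⊕ B) ∈ Sum.inl '' X ∪ Sum.inr '' Y ↔ x ∈ X := by
    intro x
    simp
  have mY : ∀ y, (Sum.inr y : A ⊕ B) ∈ Sum.inl '' X ∪ Sum.inr '' Y ↔ y ∈ Y := by
    intro y
    simp
  have mE : ∀ y, (Sum.inr y : A ⊕ B) ∈ Sum.inr '' E ↔ y ∈ E := by
    intro x
    simp
  have mE' : ∀ x, (Sum.inl x : A ⊕ B) ∉ Sum.inr '' E := by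
    intro y
    simp
  refine ⟨A ⊕ B, inferInstance, Sum.elim lam lam', th'', Sum.inl '' X ∪ Sum.inr '' Y, Sum.inr '' E,
    Sum.elim col col', Sum.elim tA uB, j1, j2, ?_, ?_, ?_, ?_, ?_, ?_⟩
  · rintro _ ⟨x, hx, rfl⟩
    exact Or.inr ⟨x, hEY hx, rfl⟩
  · rintro (x | y) hxy
    · rw [mX] at hxy
      simp only [Sum.elim_inl]
      rw [tA1 x hxy, (g2 _).1, (g2 _).2]
      exact ht x hxy
    · rw [mY] at hxy
      simp only [Sum.elim_inr]
      by_cases hyE : y ∈ E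
      · rw [uB2 y hyE]
        exact hu y hxy
      · rw [uB1 y ⟨hxy, hyE⟩, (g3 _).1, (g3 _).2]
        exact hu y hxy
  · rintro (x | y) hxy hxE z
    · rw [mX] at hxy
      rw [j3 x hxy z]
      simp only [Sum.elim_inl]
      rw [tA1 x hxy]
      have h1 := g4 ⟨x, hxy⟩ z
      rw [(ht x hxy).1] at h1
      -- the ordinary elements
      have e1 : (num fun y : {y : B // y ∈ Y ∧ y ∉ E} => y ∈ I ∧ (u y.1).2.1 = z.1 ∧
          h ⟨x, hxy⟩ y = z.2) =
          num fun y => y ∉ E ∧ (y ∈ Y ∧ lam' y = z.1 ∧ hh x y = z.2) := by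
        have e2 : (num fun y => y ∉ E ∧ (y ∈ Y ∧ lam' y = z.1 ∧ hh x y = z.2)) =
            num fun y => (y ∈ Y ∧ y ∉ E) ∧ (lam' y = z.1 ∧ hh x y = z.2) :=
          num_congr fun x => ⟨fun h => ⟨⟨h.2.1, h.1⟩, h.2.2⟩, fun h => ⟨h.1.2, h.1.1, h.2⟩⟩
        rw [e2, ← num_sub (p := fun y => y ∈ Y ∧ y ∉ E) (fun y => lam' y = z.1 ∧ hh x y = z.2)]
        refine num_congr fun y => ?_
        rw [hh1 x hxy y.1 y.2, (hu y.1 y.2.1).2]
        exact ⟨fun h => h.2, fun h => ⟨hI y, h⟩⟩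
      -- the extra elements
      have e3 : (num fun y => y ∈ E ∧ (y ∈ Y ∧ lam' y = z.1 ∧ hh x y = z.2)) =
          num fun y => y ∈ E ∧ (lam' y = z.1 ∧
            W.S.sw (W.sl (col' y, lam' y) (o, false, col x, lam x)) = z.2) := by
        refine num_congr fun y => and_congr_right fun hy => ?_
        rw [hh2 x y hy]
        exact ⟨fun h => h.2, fun h => ⟨hEY hy, h⟩⟩
      obtain ⟨j, hj⟩ := num_dvd u E W.P (fun σ => by rw [← hU σ]; exact hP σ)
        (fun y => lam' y = z.1 ∧ W.S.sw (W.sl (col' y, lam' y) (o, false, col x, lam x)) = z.2)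
        (fun σ => σ.2.1 = z.1 ∧ W.S.sw (W.sl (σ.1, σ.2.1) (o, false, col x, lam x)) = z.2)
        (fun y hy => by rw [(hu y (hEY hy)).1, (hu y (hEY hy)).2])
      have hj0 : j ≠ 0 → W.sat (col x) z := by
        intro hj0
        have h3 : (num fun y => y ∈ E ∧ (lam' y = z.1 ∧
            W.S.sw (W.sl (col' y, lam' y) (o, false, col x, lam x)) = z.2)) ≠ 0 := by
          rw [hj]
          exact Nat.mul_ne_zero W.pos.ne' hj0
        obtain ⟨y, hy, hy1, hy2⟩ := num_pos h3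
        have h4 := (hsl x hxy y hy).2.2
        simp only at h4
        rw [hy2, hy1] at h4
        exact h4
      have h2 := (hTR N Q L T O C W).2.2.2.1 _ _ _ _ j h1 hj0 _ (hn x hxy (hE' x) z)
      rw [e1] at h2
      rw [num_split E (fun y => y ∈ Y ∧ lam' y = z.1 ∧ hh x y = z.2), e3, hj]
      exact h2
    · rw [mY] at hxy
      rw [mE] at hxE
      rw [j4 y hxy z]
      simp only [Sum.elim_inr]
      rw [uB1 y ⟨hxy, hxE⟩]
      have h1 := g5 ⟨y, hxy, hxE⟩ (hI _) z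
      rw [(hu y hxy).1] at h1
      have h2 := h1 _ (hn' y hxy hxE z)
      have e1 : (num fun x : {x : A // x ∈ X} => (t x.1).2.1 = z.1 ∧
          W.S.sw (h x ⟨y, hxy, hxE⟩) = z.2) =
          num fun x => x ∈ X ∧ lam x = z.1 ∧ W.S.sw (hh x y) = z.2 := by
        rw [← num_sub (p := fun x => x ∈ X) (fun x => lam x = z.1 ∧ W.S.sw (hh x y) = z.2)]
        refine num_congr fun x => ?_
        rw [hh1 x.1 x.2 y ⟨hxy, hxE⟩, (ht x.1 x.2).2]
      rw [e1] at h2
      exact h2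
  · rintro _ ⟨y, hy, rfl⟩ z
    obtain ⟨n, hn1, hn2⟩ := hE y hy z
    refine ⟨n, ?_, ?_⟩
    · simp only [Sum.elim_inr]
      rw [uB2 y hy]
      exact hn1
    · rw [j4 y (hEY hy) z, hn2]
      simp only [Sum.elim_inr, Pi.add_apply]
      rw [add_assoc]
      congr 2
      rw [ofs_eq W o false (kc a) (col' y, lam' y) z]
      have e1 : kc a = fun κ => num fun x => x ∈ X ∧ (col x, lam x) = κ := by
        funext κ
        exact kc_eq a (fun x => x ∈ X) t col lam hb' ht κ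
      rw [e1, ← num_fib (fun x => x ∈ X) (fun x => (col x, lam x))
        (fun κ' : Q × L => κ'.2 = z.1 ∧ W.sl (col' y, lam' y) (o, false, κ') = z.2)]
      refine num_congr fun x => and_congr_right fun _ => ?_
      rw [hh2 x y hy, W.S.sw_sw]
  · intro σ
    rw [num_sum, Pi.add_apply, g6 σ, g8 σ]
    congr 1
    · rw [show (fun x : {x : A // x ∈ X} => t' x = σ) = fun x => tA x.1 = σ from
        funext fun x => by rw [tA1 x.1 x.2], num_sub (fun a => tA a = σ)]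
      refine num_congr fun x => ?_
      rw [mX]
      simp only [Sum.elim_inl]
      exact ⟨fun h => ⟨h.1, mE' x, h.2⟩, fun h => ⟨h.1, h.2.2⟩⟩
    · have e1 : (num fun y : {y : B // y ∈ Y ∧ y ∉ E} => y ∈ I ∧ u' y = σ) =
          num fun y : {y : B // y ∈ Y ∧ y ∉ E} => uB y.1 = σ :=
        num_congr fun y => by
          rw [uB1 y.1 y.2]
          exact ⟨fun h => h.2, fun h => ⟨hI y, h⟩⟩
      rw [e1, num_sub (fun a => uB a = σ)]
      refine num_congr fun y => ?_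
      rw [mY, mE]
      simp only [Sum.elim_inr]
      exact and_assoc
  · intro σ
    rw [num_sum, hU σ]
    have e1 : (num fun x : A => (Sum.inl x : A ⊕ B) ∈ Sum.inr '' E ∧
        Sum.elim tA uB (Sum.inl x) = σ) = 0 := num_nil fun y h => mE' y h.1
    rw [e1, zero_add]
    refine num_congr fun y => ?_
    rw [mE]
    refine and_congr_right fun hy => ?_
    simp only [Sum.elim_inr]
    rw [uB2 y hy]

end Pool.Agent.H8.CH
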