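import Pool.Agent.H46.CH.UT

/-!
# Row AU: reachability by recognised relations is in linear space
-/

set_option autoImplicit false

namespace Pool.Agent.H8.CH

open Classical Pool.Agent.H8.VR Pool.Agent.H69.VR Pool.Agent.H46.CH
open Pool.Agent.H8.JS (NTM Cfg Mv lang num)

/-- the numbers with the digits `w 0, …, w n` -/
def vec {ι : Type} (n : ℕ) (w : ℕ → ι → Bool) : ι → ℕ := val ((List.range (n + 1)).map w)

theorem vec_apply {ι : Type} (n : ℕ) (w : ℕ → ι → Bool) (i : ι) :
    vec n w i = (List.range (n + 1)).foldl (fun a k => 2 * a + (w k i).toNat) 0 := by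
  unfold vec val
  rw [List.foldl_map]

theorem fold_lt (f : ℕ → Bool) (m : ℕ) :
    (List.range m).foldl (fun a k => 2 * a + (f k).toNat) 0 < 2 ^ m := by
  induction m with
  | zero => simp
  | succ m ih =>
    rw [List.range_succ, List.foldl_append, List.foldl_cons, List.foldl_nil, pow_succ]
    have := Bool.toNat_le (f m)
    omega

theorem vec_lt {ι : Type} (n : ℕ) (w : ℕ → ι → Bool) (i : ι) : vec n w i < 2 ^ (n + 1) := by
  rw [vec_apply]
  exact fold_lt (fun k => w k i) (n + 1)

theorem fold_bits (n v m : ℕ) (hm : m ≤ n + 1) (hv : v < 2 ^ (n + 1)) :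
    (List.range m).foldl (fun a k => 2 * a + (v.testBit (n - k)).toNat) 0 = v / 2 ^ (n + 1 - m) := by
  induction m with
  | zero => simpa using (Nat.div_eq_of_lt hv).symm
  | succ m ih =>
    rw [List.range_succ, List.foldl_append, List.foldl_cons, List.foldl_nil, ih (by omega)]
    have e1 : n + 1 - m = (n - m) + 1 := by omega
    have e2 : n + 1 - (m + 1) = n - m := by omega
    rw [e1, e2, pow_succ, ← Nat.div_div_eq_div_mul, Nat.testBit_eq_decide_div_mod_eq]
    generalize v / 2 ^ (n - m) = y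
    rcases Nat.mod_two_eq_zero_or_one y with h | h
    · rw [h]
      simp only [zero_ne_one, decide_false, Bool.toNat_false]
      omega
    · rw [h]
      simp only [decide_true, Bool.toNat_true]
      omega

theorem vec_surj {ι : Type} (n : ℕ) (v : ι → ℕ) (hv : ∀ i, v i < 2 ^ (n + 1)) :
    ∃ w : ℕ → ι → Bool, vec n w = v := by
  refine ⟨fun k i => (v i).testBit (n - k), funext fun i => ?_⟩
  rw [vec_apply, fold_bits n (v i) (n + 1) le_rfl (hv i)]
  simp

theorem fold_num (x : List Bool) :
    (List.range (x.length + 1)).foldl (fun a k => 2 * a + (dg x k).toNat) 0 = num x := by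
  rw [List.range_succ_eq_map, List.foldl_cons, List.foldl_map]
  have e : x = (List.range x.length).map fun k => x.getD k false := by
    refine List.ext_getElem (by simp) fun i h1 h2 => ?_
    simp only [List.getElem_map, List.getElem_range]
    rw [List.getD_eq_getElem _ _ h1]
  have h1 : num x = (List.range x.length).foldl (fun a k => 2 * a + (x.getD k false).toNat) 1 := by
    have h2 : num x = x.foldl (fun n b => 2 * n + b.toNat) 1 := rfl
    rw [h2]
    conv_lhs => rw [e]
    rw [List.foldl_map]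
  rw [h1]
  simp [dg]

section
variable {S ι κ E : Type} (src tgt : E → S) (s₀ : S) (M : E → DA (ι ⊕ κ ⊕ ι ⊕ Unit))

/-- the system of sweeps -/
def auA [Finite S] [Finite ι] [Finite E] (s₁ : S) : SWS where
  S := S
  Λ := ι → Bool
  Z := Σ e, (M e).σ
  finS := inferInstance
  finΛ := inferInstance
  finZ := by
    have := fun e => (M e).fin
    exact inferInstance
  s₀ := s₀
  s₁ := s₁
  z₀ := fun s z => src z.1 = s ∧ z.2 = (M z.1).ini
  δ := fun z d a a' z' => ∃ u : κ → Bool,
    z' = ⟨z.1, (M z.1).step z.2 (Sum.elim a (Sum.elim u (Sum.elim a' fun _ => d)))⟩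
  z₁ := fun z s => tgt z.1 = s ∧ (M z.1).acc z.2

/-- the digits read in a sweep -/
def dgt (x : List Bool) (w : ℕ → ι → Bool) (u : ℕ → κ → Bool) (w' : ℕ → ι → Bool) (i : ℕ) :
    ι ⊕ κ ⊕ ι ⊕ Unit → Bool :=
  Sum.elim (w i) (Sum.elim (u i) (Sum.elim (w' i) fun _ => dg x i))

theorem vec_dgt (x : List Bool) (w : ℕ → ι → Bool) (u : ℕ → κ → Bool) (w' : ℕ → ι → Bool) :
    vec x.length (dgt x w u w') = Sum.elim (vec x.length w) (Sum.elim (vec x.length u)
      (Sum.elim (vec x.length w') fun _ => num x)) := by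
  funext j
  rw [vec_apply]
  rcases j with i | i | i | i
  · simp only [dgt, Sum.elim_inl]; rw [vec_apply]
  · simp only [dgt, Sum.elim_inl, Sum.elim_inr]; rw [vec_apply]
  · simp only [dgt, Sum.elim_inl, Sum.elim_inr]; rw [vec_apply]
  · simp only [dgt, Sum.elim_inr]; exact fold_num x

theorem sw_iff [Finite S] [Finite ι] [Finite E] (s₁ : S) (P : E → (ι ⊕ κ ⊕ ι ⊕ Unit → ℕ) → Prop)
    (hM : ∀ e, ∀ w, ((M e).acc (w.foldl (M e).step (M e).ini) ↔ P e (val w))) (x : List Bool)
    (s s' : S) (w w' : ℕ → ι → Bool) :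
    (auA src tgt s₀ M s₁).Sw x s w s' w' ↔ ∃ e, src e = s ∧ tgt e = s' ∧ ∃ u : ℕ → κ → Bool,
      P e (Sum.elim (vec x.length w) (Sum.elim (vec x.length u)
        (Sum.elim (vec x.length w') fun _ => num x))) := by
  constructor
  · rintro ⟨z, h0, h1, h2⟩
    have hu : ∀ i, ∃ u : κ → Bool, i < x.length + 1 →
        z (i + 1) = ⟨(z i).1, (M (z i).1).step (z i).2
          (Sum.elim (w i) (Sum.elim u (Sum.elim (w' i) fun _ => dg x i)))⟩ := by
      intro i
      by_cases hi : i < x.length + 1
      · obtain ⟨u, hu⟩ := h1 i hi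
        exact ⟨u, fun _ => hu⟩
      · exact ⟨fun _ => false, fun h => absurd h hi⟩
    choose u hu using hu
    have key : ∀ i ≤ x.length + 1, z i = ⟨(z 0).1, ((List.range i).map (dgt x w u w')).foldl
        (M (z 0).1).step (M (z 0).1).ini⟩ := by
      intro i
      induction i with
      | zero =>
        intro _
        rw [List.range_zero, List.map_nil, List.foldl_nil, ← h0.2]
        rfl
      | succ i ih =>
        intro hi
        rw [hu i (by omega), ih (by omega), List.range_succ, List.map_append, List.foldl_append]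
        rfl
    refine ⟨(z 0).1, h0.1, ?_, u, ?_⟩
    · have := h2.1
      rw [key _ le_rfl] at this
      exact this
    · have := h2.2
      rw [key _ le_rfl] at this
      rw [← vec_dgt]
      exact (hM _ _).1 this
  · rintro ⟨e, rfl, rfl, u, h⟩
    refine ⟨fun i => ⟨e, ((List.range i).map (dgt x w u w')).foldl (M e).step (M e).ini⟩,
      ⟨rfl, rfl⟩, fun i _ => ⟨u i, ?_⟩, rfl, ?_⟩
    · simp only [List.range_succ, List.map_append, List.foldl_append]
      rfl
    · rw [← vec_dgt] at h
      exact (hM _ _).2 h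

end

theorem pf_AU (hA : T_SWA) (hB : T_SWB) : T_AU := by
  intro S ι κ E _ _ _ _ src tgt s₀ s₁ P hP
  choose M hM using hP
  have h1 : ∀ (x : List Bool) (s : (auA src tgt s₀ M s₁).S) (w : ℕ → (auA src tgt s₀ M s₁).Λ),
      (auA src tgt s₀ M s₁).Rch x s w →
      AuR (S := S) (ι := ι) src tgt s₀ P (2 ^ (x.length + 1)) (num x) s (vec x.length w) := by
    intro x s w h
    induction h with
    | ini w => exact AuR.ini _ (vec_lt x.length w)
    | sw s w s' w' h h' ih =>
      obtain ⟨e, rfl, rfl, u, hu⟩ := (sw_iff src tgt s₀ M s₁ P hM x s s' w w').1 h'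
      exact AuR.st e _ (vec x.length u) _ ih (vec_lt x.length u) (vec_lt x.length w') hu
  have h2 : ∀ (x : List Bool) (s : S) (v : ι → ℕ),
      AuR src tgt s₀ P (2 ^ (x.length + 1)) (num x) s v →
      (∀ i, v i < 2 ^ (x.length + 1)) ∧
        ∀ w, vec x.length w = v → (auA src tgt s₀ M s₁).Rch x s w := by
    intro x s v h
    induction h with
    | ini v hv => exact ⟨hv, fun w _ => SWS.Rch.ini (A := auA src tgt s₀ M s₁) (x := x) w⟩
    | st e v u v' h hu hv hP ih =>
      refine ⟨hv, fun w' hw' => ?_⟩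
      obtain ⟨w, hw⟩ := vec_surj x.length v ih.1
      obtain ⟨u', hu'⟩ := vec_surj x.length u hu
      refine SWS.Rch.sw (A := auA src tgt s₀ M s₁) (x := x) (src e) w (tgt e) w' (ih.2 w hw) ?_
      refine (sw_iff src tgt s₀ M s₁ P hM x (src e) (tgt e) w w').2 ⟨e, rfl, rfl, u', ?_⟩
      rw [hw, hu', hw']
      exact hP
  refine ⟨1, swM (auA src tgt s₀ M s₁), fun x => ⟨?_, ?_⟩⟩
  · beta_reduce
    rw [one_mul]
    exact (hA _ x).1
  · constructor
    · rintro ⟨v, hv⟩
      obtain ⟨h3, h4⟩ := h2 x s₁ v hv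
      obtain ⟨w, hw⟩ := vec_surj x.length v h3
      exact hB _ x ⟨w, h4 w hw⟩
    · intro h
      obtain ⟨w, hw⟩ := (hA _ x).2 h
      exact ⟨_, h1 x s₁ w hw⟩

end Pool.Agent.H8.CH
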