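import Pool.Agent.H46.CH.UT

/-!
# Row LG: linear expressions and their grammar
-/

set_option autoImplicit false

namespace Pool.Agent.H8.CH

open Classical Pool.Agent.H8.VR Pool.Agent.H69.VR Pool.Agent.H46.CH
open Pool.Agent.H8.JS (NTM Cfg Mv lang num)

theorem lnlc_ne {A : Type} {k m : ℕ} {R : ℕ → A → A → Prop} {X : Set A} {c : A → Fin k}
    (h : LNLC k m R X c) : X.Nonempty := by
  induction h with
  | pt a c => exact Set.singleton_nonempty a
  | op X b c c₁ h₁ hb l r f hR hX ih => exact ih.mono Set.subset_union_left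

theorem lin_pt {A : Type} {k m : ℕ} {P : ℕ → A → Prop} {R : ℕ → A → A → Prop}
    (s : Bool) (a : A) (c : A → Fin k) : (linG k m).Gen m P R s {a} c := by
  refine Gram.Gen.pt (G := linG k m) (m := m) (P := P) (R := R)
    { s := s, q := c a, un := fun i => ∃ h : i < m, (fun j : Fin m => decide (P j a)) ⟨i, h⟩ = true,
      lp := fun i => ∃ h : i < m, (fun j : Fin m => decide (R j a a)) ⟨i, h⟩ = true } ?_ a c rfl
    (fun i hi => by simp [hi]) (fun i hi => by simp [hi])
  refine List.mem_flatMap.2 ⟨s, by cases s <;> simp, List.mem_map.2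
    ⟨(c a, (fun j : Fin m => decide (P j a)), fun j : Fin m => decide (R j a a)),
      Finset.mem_toList.2 (Finset.mem_univ _), rfl⟩⟩

theorem lnlc_gen {A : Type} [Finite A] {k m : ℕ} {P : ℕ → A → Prop} {R : ℕ → A → A → Prop}
    {X : Set A} {c : A → Fin k} (h : LNLC k m R X c) : (linG k m).Gen m P R true X c := by
  induction h with
  | pt a c => exact lin_pt true a c
  | op X b c c₁ h₁ hb l r f hR hX ih =>
    refine Gram.Gen.op (G := linG k m) (m := m) (P := P) (R := R)
      { s := true, t := false, u := true,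
        l := fun i p _ => ∃ h : i < m, (fun (j : Fin m) p => decide (l j p)) ⟨i, h⟩ p = true,
        r := fun i p _ => ∃ h : i < m, (fun (j : Fin m) p => decide (r j p)) ⟨i, h⟩ p = true,
        f := f, g := fun _ => c b, D := {n | 0 < n} } ?_ X {b} c c₁ c ih (lin_pt false b c)
      (Set.disjoint_singleton_right.2 hb) ?_ (fun a ha b' hb' i hi => ?_) hX
      (fun b' hb' => by rw [Set.mem_singleton_iff.1 hb'])
    · exact List.mem_map.2 ⟨((fun (j : Fin m) p => decide (l j p)),
        (fun (j : Fin m) p => decide (r j p)), f, c b), Finset.mem_toList.2 (Finset.mem_univ _), rfl⟩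
    · have h1 : 0 < X.ncard := (Set.ncard_pos X.toFinite).2 (lnlc_ne h₁)
      exact lt_of_lt_of_le h1 (Nat.left_le_pair X.ncard ({b} : Set A).ncard)
    · rw [Set.mem_singleton_iff.1 hb']
      simp [hi, hR a ha i hi]

theorem gen_lnlc {A : Type} {k m : ℕ} {P : ℕ → A → Prop} {R : ℕ → A → A → Prop}
    {X : Set A} {c : A → Fin k} {s : Bool} (h : (linG k m).Gen m P R s X c) :
    (s = true → LNLC k m R X c) ∧ (s = false → ∃ b, X = {b}) := by
  induction h with
  | pt x hx a c hc hP hR => exact ⟨fun _ => LNLC.pt a c, fun _ => ⟨a, rfl⟩⟩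
  | op o ho X Y c c₁ c₂ h₁ h₂ hd hD hR hX hY ih1 ih2 =>
    obtain ⟨x, -, rfl⟩ := List.mem_map.1 ho
    obtain ⟨b, rfl⟩ := ih2.2 rfl
    refine ⟨fun _ => ?_, fun h => absurd h (by simp)⟩
    exact LNLC.op X b c c₁ (ih1.1 rfl) (Set.disjoint_singleton_right.1 hd)
      (fun i p => ∃ h : i < m, x.1 ⟨i, h⟩ p = true) (fun i p => ∃ h : i < m, x.2.1 ⟨i, h⟩ p = true)
      x.2.2.1 (fun a ha i hi => hR a ha b rfl i hi) hX

theorem pf_LG : T_LG := by
  intro k m Ψ φ
  ext n
  refine and_congr_right fun _ => exists_congr fun P => exists_congr fun R => ?_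
  refine and_congr_left fun _ => ⟨?_, ?_⟩
  · rintro ⟨c, hc⟩; exact ⟨c, lnlc_gen hc⟩
  · rintro ⟨c, hc⟩; exact ⟨c, (gen_lnlc hc).1 rfl⟩

end Pool.Agent.H8.CH
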