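import Pool.Agent.H8.CH.LStp

/-!
# Row LRA: generated implies reached
-/

set_option autoImplicit false

namespace Pool.Agent.H8.CH

open Classical Pool.Agent.H8.VR Pool.Agent.H69.VR Pool.Agent.H46.CH

theorem gen_pt {N Q L T O A : Type} {S : Sg N Q L T O} {lam : A → L} {th : A → A → T} {s : N}
    {Y : Set A} {c : A → Q} (h : S.Gen lam th s Y c) (hs : ∀ o, S.u o ≠ s) :
    ∃ b, Y = {b} ∧ S.pt s (c b) (lam b) := by
  cases h with
  | pt s a c h => exact ⟨a, rfl, h⟩
  | op o X Y c c₁ c₂ h₁ h₂ hd hg ha hX hY => exact absurd rfl (hs o)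

theorem pf_LRA : T_LRA := by
  intro N Q L T O C _ _ _ _ S K hL s c hc
  obtain ⟨A, _, lam, th, X, col, hsym, hG, rfl⟩ := hc
  induction hG with
  | pt s a c h =>
    exact LR.pt s _ ⟨c a, lam a, h, fun σ => Pool.Agent.H33.VR.cf_single K lam th a c σ⟩
  | op o X Y c c₁ c₂ h₁ h₂ hd hg ha hX hY ih1 ih2 =>
    obtain ⟨b, rfl, hb⟩ := gen_pt h₂ fun o' => hL o o'
    have hbX : b ∉ X := Set.disjoint_singleton_right.1 hd
    let g : A → Q := fun a => if a = b then c₂ b else c₁ a
    have hgX : ∀ a ∈ X, g a = c₁ a := fun a h => if_neg fun e : a = b => hbX (e ▸ h)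
    have hgb : g b = c₂ b := if_pos rfl
    have st := step_lemma S K lam th hsym X ∅ ∅ b (Set.disjoint_empty X) (Set.disjoint_empty X) hbX
      (Set.notMem_empty b) (Set.notMem_empty b) g o (fun x hx => by
        rw [hgX x hx, hgb]; exact ha x hx b rfl)
    have e0 : (insert b ∅ : Set A) = {b} := LawfulSingleton.insert_empty_eq b
    have e1 : (∅ : Set A) ∪ {b} = {b} := Set.empty_union _
    rw [e0, Set.union_empty, e1] at st
    have e2 : stt K lam th {b} b = (lam b, fun _ => K.cp 0) := by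
      unfold stt
      refine Prod.ext rfl (funext fun p => ?_)
      simp only
      congr 1
      unfold kn
      exact Pool.Agent.H33.VR.num_zero fun b h => h.2.1 h.1
    rw [e2, hgb] at st
    obtain ⟨s1, s2, s3, s4, s5⟩ := st
    have s5' : ∀ σ, cf K lam th {b} (X ∪ {b}) g σ =
        ind (σ = nw S K (c₂ b, (lam b, fun _ => K.cp 0)) (mz K lam th X X g b)) := by
      intro σ
      rw [s5 σ, Pool.Agent.H33.VR.cf_empty, zero_add]
    have h3 : Fn S o (cf K lam th X (X ∪ {b}) g) (cf K lam th {b} (X ∪ {b}) g)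
        (cf K lam th (X ∪ {b}) (X ∪ {b}) c) := by
      refine Pool.Agent.H33.VR.fn_cf S K o lam th X {b} hd g c ?_ ?_
      · intro a h
        rw [hX a h, hgX a h]
      · rintro a rfl
        rw [hY a rfl, hgb]
    rw [fn_step S K o _ _ _ _ s4 s5'] at h3
    refine LR.st o (c₂ b) (lam b) (mz K lam th X X g b) (cf K lam th X X c₁) _ ih1
      ⟨hb, fun σ => ?_, s2, h3⟩
    rw [s1 σ, Pool.Agent.H33.VR.cf_congr K lam th th X X c₁ g (fun _ _ _ _ _ => rfl) hgX]

end Pool.Agent.H8.CH
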