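import Pool.Agent.H8.CH.LStp
import Pool.Agent.H8.VR.All

/-!
# Row LRB: reached implies generated
-/

set_option autoImplicit false

namespace Pool.Agent.H8.CH

open Classical Pool.Agent.H8.VR Pool.Agent.H69.VR Pool.Agent.H46.CH

theorem pf_LRB : T_LRB := by
  intro N Q L T O C _ _ _ _ _ S K hD s c hc
  obtain ⟨hT, -⟩ := pf_tt N Q L T O C S K
  induction hc with
  | pt s c h => exact Pool.Agent.H33.VR.rc_pt S K s c h
  | st o q l m c c' h h' ih =>
    obtain ⟨h1, h2, h3, h4⟩ := h'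
    have ta : 0 < tot c := by
      obtain ⟨A, _, lam, th, X, col, hsym, hG, rfl⟩ := ih
      rw [hT]
      exact (Set.ncard_pos (Set.toFinite X)).2 (Pool.Agent.H33.VR.gen_nonempty hG)
    have hb : RF S K (S.t o) (fun σ => ind (σ = (q, (l, fun _ => K.cp 0)))) :=
      Pool.Agent.H33.VR.rc_pt S K (S.t o) _ ⟨q, l, h1, fun _ => rfl⟩
    have tb : tot (fun σ : Ix Q L T C => ind (σ = (q, (l, fun _ => K.cp 0)))) = 1 :=
      sum_ind (q, (l, fun _ => K.cp 0))
    have j1 : RJ S K o c (fun σ => ind (σ = (q, (l, fun _ => K.cp 0)))) (fun _ => 0) :=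
      Pool.Agent.H33.VR.rc_union Pool.Agent.H65.VR.pf_GM Pool.Agent.H53.VR.t_CM pf_tt S K o c _ _
        (fun _ => rfl) ih hb (hD o _ _ ta (by rw [tb]; exact Nat.one_pos))
    have j2 : RJ S K o (fun σ => fs (fun p => up K (q, (l, fun _ => K.cp 0)) p = σ) m)
        (fun _ => 0) (fun σ => ind (σ = nw S K (q, (l, fun _ => K.cp 0)) m)) :=
      Pool.Agent.H33.VR.rc_step Pool.Agent.H65.VR.pf_GM Pool.Agent.H49.VR.pf_FB S K o
        (q, (l, fun _ => K.cp 0)) m _ _ _ _ _ _ j1 ⟨h2, h3, fun σ => zero_add _, fun σ => rfl,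
          fun σ => (zero_add _).symm⟩
    refine Pool.Agent.H33.VR.rc_fin S K o _ _ _ c' (fun _ => rfl) j2 ?_
    rw [fn_step S K o (q, (l, fun _ => K.cp 0)) m _ _ (fun _ => rfl) (fun _ => rfl)]
    exact h4

end Pool.Agent.H8.CH
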