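import Pool.Agent.H46.CH.UT

/-!
# Row PGA: blow-ups of paths are generated
-/

set_option autoImplicit false

namespace Pool.Agent.H8.CH

open Classical Pool.Agent.H8.VR Pool.Agent.H69.VR Pool.Agent.H46.CH
open Pool.Agent.H8.JS (NTM Cfg Mv lang num)

/-- the colours of the blocks -/
def pcl (t i : ℕ) : Fin 3 := if i = t then 0 else if i + 1 = t then 1 else 2

theorem pb_pt {A : Type} {P : ℕ → A → Prop} {R : ℕ → A → A → Prop} (s : Bool) (a : A)
    (c : A → Fin 3) (hc : c a = 0) (hR : R 0 a a) : pbG.Gen 1 P R s {a} c := by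
  refine Gram.Gen.pt (G := pbG) (m := 1) (P := P) (R := R)
    { s := s, q := 0, un := fun _ => decide (P 0 a) = true, lp := fun _ => True } ?_ a c hc ?_ ?_
  · refine List.mem_flatMap.2 ⟨s, by cases s <;> simp, List.mem_map.2 ⟨decide (P 0 a), ?_, rfl⟩⟩
    cases decide (P 0 a) <;> simp
  · intro i hi
    obtain rfl : i = 0 := by omega
    simp
  · intro i hi
    obtain rfl : i = 0 := by omega
    simp [hR]

theorem pga_aux {A : Type} [Finite A] (P : ℕ → A → Prop) (R : ℕ → A → A → Prop) (T : ℕ)
    (b : A → ℕ) (hb : ∀ i, (∃ x, b x = i) ↔ i ≤ T)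
    (hR : ∀ x y, (R 0 x y ↔ b x ≤ b y ∧ b y ≤ b x + 1)) : ∀ (n : ℕ) (X : Set A), X.ncard = n →
    ∀ t, (∃ x ∈ X, b x = t) → (∀ x ∈ X, b x ≤ t) → (∀ y, b y < t → y ∈ X) →
    ∀ c : A → Fin 3, (∀ x ∈ X, c x = pcl t (b x)) → pbG.Gen 1 P R true X c := by
  intro n
  induction n with
  | zero =>
    rintro X hX t ⟨x, hx, -⟩
    rw [Set.ncard_eq_zero (Set.toFinite X)] at hX
    rw [hX] at hx
    exact absurd hx (Set.notMem_empty x)
  | succ n ih =>
    rintro X hX t ⟨x, hx, hxt⟩ h1 h2 c hc
    have hn : (X \ {x}).ncard = n := by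
      rw [Set.ncard_sdiff_singleton_of_mem hx, hX, Nat.add_sub_cancel]
    have eX : X \ {x} ∪ {x} = X := by
      rw [Set.union_singleton, Set.insert_sdiff_singleton, Set.insert_eq_of_mem hx]
    have hRxx : R 0 x x := (hR x x).2 ⟨le_rfl, Nat.le_succ _⟩
    have hcx : c x = 0 := by rw [hc x hx, hxt]; simp [pcl]
    have hdis : Disjoint (X \ {x}) {x} := Set.disjoint_singleton_right.2 fun h => h.2 rfl
    by_cases h3 : ∃ y ∈ X \ {x}, b y = t
    · have hg := ih (X \ {x}) hn t h3 (fun y hy => h1 y hy.1)
        (fun y hy => ⟨h2 y hy, fun e => by rw [Set.mem_singleton_iff.1 e] at hy; omega⟩)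
        (fun y => pcl t (b y)) (fun _ _ => rfl)
      have := Gram.Gen.op (G := pbG) (m := 1) (P := P) (R := R)
        { s := true, t := false, u := true, l := fun _ p _ => p ≠ 2, r := fun _ p _ => p = 0,
          f := id, g := id, D := {n | 0 < n} } (by simp [pbG]) (X \ {x}) {x} c
        (fun y => pcl t (b y)) (fun _ => 0) hg (pb_pt false x _ rfl hRxx) hdis ?_ ?_ ?_ ?_
      · rw [eX] at this
        exact this
      · obtain ⟨y, hy, -⟩ := h3
        have : 0 < (X \ {x}).ncard := (Set.ncard_pos (Set.toFinite _)).2 ⟨y, hy⟩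
        exact lt_of_lt_of_le this (Nat.left_le_pair _ _)
      · intro a ha b' hb' i hi
        obtain rfl := Set.mem_singleton_iff.1 hb'
        obtain rfl : i = 0 := by omega
        have := h1 a ha.1
        rw [hR, hR, hxt]
        simp only [pcl]
        split_ifs with g1 g2
        · simp; omega
        · simp; omega
        · simp; omega
      · intro a ha
        exact hc a ha.1
      · intro a ha
        rw [Set.mem_singleton_iff.1 ha]
        exact hcx
    · by_cases h4 : X \ {x} = ∅
      · have : X = {x} := by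
          rw [← eX, h4, Set.empty_union]
        rw [this]
        exact pb_pt true x c hcx hRxx
      · obtain ⟨y, hy⟩ := Set.nonempty_iff_ne_empty.2 h4
        have hyt : b y < t := lt_of_le_of_ne (h1 y hy.1) fun e => h3 ⟨y, hy, e⟩
        have hT : t - 1 ≤ T := by
          have := (hb t).1 ⟨x, hxt⟩
          omega
        obtain ⟨z, hz⟩ := (hb (t - 1)).2 hT
        have hzx : z ≠ x := fun e => by rw [e] at hz; omega
        have hlt : ∀ a ∈ X \ {x}, b a ≤ t - 1 := by
          intro a ha
          have := lt_of_le_of_ne (h1 a ha.1) fun e => h3 ⟨a, ha, e⟩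
          omega
        have hg := ih (X \ {x}) hn (t - 1) ⟨z, ⟨h2 z (by omega), hzx⟩, hz⟩ hlt
          (fun a ha => ⟨h2 a (by omega), fun e => by rw [Set.mem_singleton_iff.1 e] at ha; omega⟩)
          (fun y => pcl (t - 1) (b y)) (fun _ _ => rfl)
        have := Gram.Gen.op (G := pbG) (m := 1) (P := P) (R := R)
          { s := true, t := false, u := true, l := fun _ p _ => p = 0, r := fun _ _ _ => False,
            f := fun p => if p = 0 then 1 else 2, g := id, D := {n | 0 < n} } (by simp [pbG])
          (X \ {x}) {x} c (fun y => pcl (t - 1) (b y)) (fun _ => 0) hg (pb_pt false x _ rfl hRxx)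
          hdis ?_ ?_ ?_ ?_
        · rw [eX] at this
          exact this
        · have : 0 < (X \ {x}).ncard := (Set.ncard_pos (Set.toFinite _)).2 ⟨y, hy⟩
          exact lt_of_lt_of_le this (Nat.left_le_pair _ _)
        · intro a ha b' hb' i hi
          obtain rfl := Set.mem_singleton_iff.1 hb'
          obtain rfl : i = 0 := by omega
          have := hlt a ha
          rw [hR, hR, hxt]
          simp only [pcl]
          split_ifs with g1 g2
          · simp; omega
          · simp; omega
          · simp; omega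
        · intro a ha
          have := hlt a ha
          rw [hc a ha.1]
          simp only [pcl]
          split_ifs with g1 g2 g3 g4 g5 g6 g7 <;> first | rfl | omega
        · intro a ha
          rw [Set.mem_singleton_iff.1 ha]
          exact hcx

theorem pf_PGA : T_PGA := by
  rintro A _ _ P R ⟨T, b, hb, hR⟩
  obtain ⟨x, hx⟩ := (hb T).2 le_rfl
  exact ⟨fun y => pcl T (b y), pga_aux P R T b hb hR _ Set.univ rfl T ⟨x, Set.mem_univ x, hx⟩
    (fun y _ => (hb _).1 ⟨y, rfl⟩) (fun y _ => Set.mem_univ y) _ fun _ _ => rfl⟩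

end Pool.Agent.H8.CH
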