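import Pool.Agent.H46.CH.UT

/-!
# Row PGB: only blow-ups of paths are generated
-/

set_option autoImplicit false

namespace Pool.Agent.H8.CH

open Classical Pool.Agent.H8.VR Pool.Agent.H69.VR Pool.Agent.H46.CH
open Pool.Agent.H8.JS (NTM Cfg Mv lang num)

/-- `X` carries the blow-up of a path, with the colours `c` -/
def PInv {A : Type} (R : A → A → Prop) (X : Set A) (c : A → Fin 3) : Prop :=
  ∃ (t : ℕ) (b : A → ℕ), (∀ i, (∃ x ∈ X, b x = i) ↔ i ≤ t) ∧
    (∀ x ∈ X, ∀ y ∈ X, (R x y ↔ b x ≤ b y ∧ b y ≤ b x + 1)) ∧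
    ∀ x ∈ X, (c x = 0 ↔ b x = t) ∧ (c x = 1 ↔ b x + 1 = t)

theorem fin3 (q : Fin 3) : q ≠ 2 ↔ q = 0 ∨ q = 1 := by
  revert q; decide

theorem pinv_of {A : Type} {P : ℕ → A → Prop} {R : ℕ → A → A → Prop} {s : Bool} {X : Set A}
    {c : A → Fin 3} (h : pbG.Gen 1 P R s X c) :
    (s = false → ∃ a, X = {a} ∧ c a = 0 ∧ R 0 a a) ∧ (s = true → PInv (R 0) X c) := by
  induction h with
  | pt x hx a c hc hP hR =>
    have hq : x.q = 0 ∧ x.lp = fun _ => True := by
      simp only [pbG, List.mem_flatMap, List.mem_map] at hx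
      obtain ⟨s, -, y, -, rfl⟩ := hx
      exact ⟨rfl, rfl⟩
    have h0 : R 0 a a := (hR 0 Nat.one_pos).2 (by rw [hq.2]; trivial)
    rw [hq.1] at hc
    refine ⟨fun _ => ⟨a, rfl, hc, h0⟩, fun _ => ⟨0, fun _ => 0, fun i => ?_, ?_, ?_⟩⟩
    · constructor
      · rintro ⟨x, -, h⟩
        exact h ▸ le_rfl
      · intro h
        exact ⟨a, rfl, (Nat.le_zero.1 h).symm⟩
    · rintro _ rfl _ rfl
      simp [h0]
    · rintro _ rfl
      rw [hc]
      simp
  | op o ho X Y c c₁ c₂ h₁ h₂ hd hD hR hX hY ih1 ih2 =>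
    simp only [pbG, List.mem_cons, List.not_mem_nil, or_false] at ho
    rcases ho with rfl | rfl
    · refine ⟨fun h => absurd h (by simp), fun _ => ?_⟩
      obtain ⟨z, rfl, hz, hzz⟩ := ih2.1 rfl
      obtain ⟨t, b, k1, k2, k3⟩ := ih1.2 rfl
      have hzX : z ∉ X := Set.disjoint_singleton_right.1 hd
      have e1 : ∀ x ∈ X, Function.update b z t x = b x := fun x hx =>
        Function.update_of_ne (fun e : x = z => hzX (e ▸ hx)) _ _
      have e2 : Function.update b z t z = t := Function.update_self _ _ _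
      have kt : ∀ x ∈ X, b x ≤ t := fun x hx => (k1 _).1 ⟨x, hx, rfl⟩
      refine ⟨t, Function.update b z t, fun i => ⟨?_, ?_⟩, ?_, ?_⟩
      · rintro ⟨x, hx | hx, rfl⟩
        · rw [e1 x hx]; exact kt x hx
        · rw [Set.mem_singleton_iff.1 hx, e2]
      · intro hi
        obtain ⟨x, hx, rfl⟩ := (k1 i).2 hi
        exact ⟨x, Or.inl hx, e1 x hx⟩
      · rintro x (hx | hx) y (hy | hy)
        · rw [e1 x hx, e1 y hy]; exact k2 x hx y hy
        · obtain rfl := Set.mem_singleton_iff.1 hy
          rw [e1 x hx, e2, (hR x hx y rfl 0 Nat.one_pos).1]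
          have := k3 x hx
          have := kt x hx
          simp only [fin3]
          omega
        · obtain rfl := Set.mem_singleton_iff.1 hx
          rw [e1 y hy, e2, (hR y hy x rfl 0 Nat.one_pos).2]
          have := k3 y hy
          have := kt y hy
          simp only
          omega
        · obtain rfl := Set.mem_singleton_iff.1 hx
          obtain rfl := Set.mem_singleton_iff.1 hy
          rw [e2]
          simp [hzz]
      · rintro x (hx | hx)
        · rw [e1 x hx, hX x hx]; exact k3 x hx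
        · obtain rfl := Set.mem_singleton_iff.1 hx
          rw [e2, hY x rfl]
          simp [hz]
    · refine ⟨fun h => absurd h (by simp), fun _ => ?_⟩
      obtain ⟨z, rfl, hz, hzz⟩ := ih2.1 rfl
      obtain ⟨t, b, k1, k2, k3⟩ := ih1.2 rfl
      have hzX : z ∉ X := Set.disjoint_singleton_right.1 hd
      have e1 : ∀ x ∈ X, Function.update b z (t + 1) x = b x := fun x hx =>
        Function.update_of_ne (fun e : x = z => hzX (e ▸ hx)) _ _
      have e2 : Function.update b z (t + 1) z = t + 1 := Function.update_self _ _ _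
      have kt : ∀ x ∈ X, b x ≤ t := fun x hx => (k1 _).1 ⟨x, hx, rfl⟩
      refine ⟨t + 1, Function.update b z (t + 1), fun i => ⟨?_, ?_⟩, ?_, ?_⟩
      · rintro ⟨x, hx | hx, rfl⟩
        · rw [e1 x hx]; exact (kt x hx).trans (Nat.le_succ t)
        · rw [Set.mem_singleton_iff.1 hx, e2]
      · intro hi
        rcases Nat.lt_or_ge t i with h | h
        · exact ⟨z, Or.inr rfl, by rw [e2]; omega⟩
        · obtain ⟨x, hx, rfl⟩ := (k1 i).2 h
          exact ⟨x, Or.inl hx, e1 x hx⟩
      · rintro x (hx | hx) y (hy | hy)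
        · rw [e1 x hx, e1 y hy]; exact k2 x hx y hy
        · obtain rfl := Set.mem_singleton_iff.1 hy
          rw [e1 x hx, e2, (hR x hx y rfl 0 Nat.one_pos).1]
          have := k3 x hx
          have := kt x hx
          simp only
          omega
        · obtain rfl := Set.mem_singleton_iff.1 hx
          rw [e1 y hy, e2, (hR y hy x rfl 0 Nat.one_pos).2]
          have := kt y hy
          simp only [false_iff]
          omega
        · obtain rfl := Set.mem_singleton_iff.1 hx
          obtain rfl := Set.mem_singleton_iff.1 hy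
          rw [e2]
          simp [hzz]
      · rintro x (hx | hx)
        · rw [e1 x hx, hX x hx]
          have h1 := k3 x hx
          have h2 := kt x hx
          simp only
          by_cases h : c₁ x = 0
          · rw [if_pos h]
            have := h1.1.1 h
            refine ⟨⟨fun h => absurd h (by decide), fun h => by omega⟩, ⟨fun _ => by omega, fun _ => rfl⟩⟩
          · rw [if_neg h]
            have : b x ≠ t := fun e => h (h1.1.2 e)
            refine ⟨⟨fun h => absurd h (by decide), fun h => by omega⟩,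
              ⟨fun h => absurd h (by decide), fun h => by omega⟩⟩
        · obtain rfl := Set.mem_singleton_iff.1 hx
          rw [e2, hY x rfl]
          simp [hz]

theorem pf_PGB : T_PGB := by
  rintro A _ P R ⟨c, hc⟩
  obtain ⟨t, b, k1, k2, -⟩ := (pinv_of hc).2 rfl
  refine ⟨t, b, fun i => ⟨?_, ?_⟩, fun x y => k2 x (Set.mem_univ x) y (Set.mem_univ y)⟩
  · rintro ⟨x, h⟩
    exact (k1 i).1 ⟨x, Set.mem_univ x, h⟩
  · intro h
    obtain ⟨x, -, h⟩ := (k1 i).2 h
    exact ⟨x, h⟩

end Pool.Agent.H8.CH
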