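import Pool.Agent.H8.CH.RgT

/-!
# Row RE: the first and the last configuration are recognised
-/

set_option autoImplicit false

namespace Pool.Agent.H8.CH

open Classical Pool.Agent.H8.VR Pool.Agent.H69.VR Pool.Agent.H46.CH
open Pool.Agent.H8.JS (NTM Cfg Mv lang num)

theorem pf_RE (hRG : T_RG) (_hRQ : T_RQ) (hRH : T_RH) : T_RE := by
  intro N Q L T O C _ _ _ _ S K
  refine ⟨fun s => ?_, fun Ok => ?_⟩
  · unfold Ptc
    refine hRH.2.1 _ Q (fun q (v : BI Q L T C → ℕ) => ∃ l, S.pt s q l ∧ ∀ σ, v (Sum.inr (Sum.inr (Sum.inl σ))) =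
      ind (σ = (q, (l, fun _ => K.cp 0)))) fun q => ?_
    refine hRH.2.1 _ L (fun l (v : BI Q L T C → ℕ) => S.pt s q l ∧ ∀ σ, v (Sum.inr (Sum.inr (Sum.inl σ))) =
      ind (σ = (q, (l, fun _ => K.cp 0)))) fun l => ?_
    refine rg_and hRG (hRG.1 _ _) ?_
    exact hRH.1 _ (Ix Q L T C) (fun σ (v : BI Q L T C → ℕ) => v (Sum.inr (Sum.inr (Sum.inl σ))) =
      ind (σ = (q, (l, fun _ => K.cp 0)))) fun σ => rg_const hRH _ _
  · refine rg_and hRG ?_ ?_
    · refine rg_congr (fun v => ?_) (rg_sum hRH (κ := Ix Q L T C) (.inr (.inr (.inr ()))) Sum.inl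
        Sum.inl_injective (fun _ => True) 0)
      rw [fs_true, add_zero]
      exact eq_comm
    · exact hRH.1 _ (Ix Q L T C) (fun σ (v : BI Q L T C → ℕ) => v (Sum.inl σ) ≠ 0 → Ok σ.2) fun σ => rg_imp hRG hRH _ _

end Pool.Agent.H8.CH
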