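import Pool.Agent.H8.CH.RgT

/-!
# Row RL: adding an element is recognised
-/

set_option autoImplicit false

namespace Pool.Agent.H8.CH

open Classical Pool.Agent.H8.VR Pool.Agent.H69.VR Pool.Agent.H46.CH
open Pool.Agent.H8.JS (NTM Cfg Mv lang num)

theorem pf_RL (hRG : T_RG) (_hRQ : T_RQ) (hRH : T_RH) : T_RL := by
  intro N Q L T O C _ _ _ _ S K o q l
  unfold LStep
  refine rg_and hRG (hRG.1 _ _) (rg_and hRG ?_ (rg_and hRG ?_ ?_))
  · refine hRH.1 _ (Ix Q L T C) (fun σ (v : BI Q L T C → ℕ) => ∑ θ, v (Sum.inr (Sum.inl (σ, θ))) = v (Sum.inl σ)) fun σ => ?_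
    refine rg_congr (fun v => ?_) (rg_sum hRH (κ := T) (.inl σ)
      (fun θ => Sum.inr (Sum.inl (σ, θ))) ?_ (fun _ => True) 0)
    · rw [fs_true, add_zero]
      exact eq_comm
    · intro θ θ' h
      simpa using h
  · exact hRH.1 _ (Ix Q L T C × T) (fun p (v : BI Q L T C → ℕ) => v (Sum.inr (Sum.inl p)) ≠ 0 → S.al o p.1.1 q p.2)
      fun p => rg_imp hRG hRH _ _
  · have key : ∀ ρ : St L T C, Rg (fun v : BI Q L T C → ℕ =>
        (nw S K (q, (l, fun _ => K.cp 0)) (fun p => v (Sum.inr (Sum.inl p)))).2 = ρ ∧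
        ∀ σ, v (Sum.inr (Sum.inr (Sum.inl σ))) = fs (fun p => (S.f o p.1.1,
          (up K (q, (l, fun _ => K.cp 0)) p).2) = σ) (fun p => v (Sum.inr (Sum.inl p))) +
          ind ((S.g o q, ρ) = σ)) := by
      intro ρ
      refine rg_and hRG ?_ ?_
      · have h1 : ∀ p : L × T, Rg (fun v : BI Q L T C → ℕ =>
            ∃ u : C, K.cp (fs (fun σ : Ix Q L T C => σ.2.1 = p.1)
              (fun σ => v (Sum.inr (Sum.inl (σ, S.sw p.2))))) = u ∧ K.ad (K.cp 0) u = ρ.2 p) := by
          intro p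
          refine hRH.2.1 _ C (fun u (v : BI Q L T C → ℕ) => K.cp (fs (fun σ : Ix Q L T C => σ.2.1 = p.1)
              (fun σ => v (Sum.inr (Sum.inl (σ, S.sw p.2))))) = u ∧ K.ad (K.cp 0) u = ρ.2 p) fun u => ?_
          refine rg_and hRG ?_ (hRG.1 _ _)
          refine rg_cp K hRH (ι := BI Q L T C)
            (fun σ : Ix Q L T C => Sum.inr (Sum.inl (σ, S.sw p.2))) ?_ _ _
          intro σ σ' h
          simpa using h
        refine rg_congr (fun v => ?_) (rg_and hRG (hRG.1 _ (l = ρ.1)) (hRH.1 _ (L × T) _ h1))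
        unfold nw
        rw [Prod.ext_iff, funext_iff]
        simp only [exists_eq_left']
      · refine hRH.1 _ (Ix Q L T C) (fun σ (v : BI Q L T C → ℕ) => v (Sum.inr (Sum.inr (Sum.inl σ))) = fs (fun p => (S.f o p.1.1,
          (up K (q, (l, fun _ => K.cp 0)) p).2) = σ) (fun p => v (Sum.inr (Sum.inl p))) +
          ind ((S.g o q, ρ) = σ)) fun σ => ?_
        refine rg_sum hRH (ι := BI Q L T C) (κ := Ix Q L T C × T) _
          (fun p => Sum.inr (Sum.inl p)) ?_ _ _
        intro p p' h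
        simpa using h
    refine rg_congr (fun v => ?_) (hRH.2.1 _ (St L T C) _ key)
    simp only [exists_eq_left']

end Pool.Agent.H8.CH
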