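import Pool.Agent.H8.CH.SwT

/-!
# Row SWA: the machine of a sweep system, space and soundness
-/

set_option autoImplicit false

namespace Pool.Agent.H8.CH

open Pool.Agent.H46.CH
open Pool.Agent.H8.JS (NTM Cfg Mv lang num)

variable {A : SWS}

/-- the symbol in the cell `j` of the tape `1` -/
def fl (x : List Bool) (y : A.Λ) (j : ℕ) : SwS A :=
  .oth (y, decide (j = 0), decide (j = x.length))

/-- the invariant -/
def Inv (x : List Bool) (c : SC A) : Prop :=
  c.t = tin A x ∧ c.h ≤ x.length ∧ c.k ≤ x.length ∧
    match c.q with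
    | .ini f => c.h = c.k ∧ f = decide (c.k = 0) ∧ ∀ j < c.k, ∃ y : A.Λ,
        c.u j = .oth (y, decide (j = 0), false)
    | .ret s => c.h = c.k - 1 ∧ ∃ w, A.Rch x s w ∧ ∀ j ≤ x.length, c.u j = fl x (w j) j
    | .fwd z => c.h = c.k - 1 ∧ ∃ (s : A.S) (w w' : ℕ → A.Λ) (zs : ℕ → A.Z), A.Rch x s w ∧
        A.z₀ s (zs 0) ∧ (∀ j < c.k, A.δ (zs j) (dg x j) (w j) (w' j) (zs (j + 1))) ∧ zs c.k = z ∧
        (∀ j < c.k, c.u j = fl x (w' j) j) ∧ ∀ j, c.k ≤ j → j ≤ x.length → c.u j = fl x (w j) j
    | .acc => ∃ w, A.Rch x A.s₁ w

theorem if_self {t : ℕ → SwS A} {h : ℕ} {a : SwS A} (ha : t h = a) {t' : ℕ → SwS A}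
    (ht : ∀ p, t' p = if p = h then a else t p) : t' = t := by
  funext p
  rw [ht p]
  split_ifs with hp
  · rw [hp, ha]
  · rfl

theorem read_bit (x : List Bool) {p : ℕ} {b : Bool} (h : tin A x p = .bit b) : p < x.length := by
  by_contra hc
  rw [tin_ge x (not_lt.1 hc)] at h
  cases h

theorem read_bl (x : List Bool) {p : ℕ} (h : tin A x p = .bl) : x.length ≤ p := by
  by_contra hc
  rw [tin_lt x (not_le.1 hc)] at h
  cases h

theorem inv_step (x : List Bool) (c c' : SC A) (hI : Inv x c) (hs : c.Stp c') : Inv x c' := by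
  obtain ⟨q, h, k, t, u⟩ := c
  obtain ⟨q', h', k', t', u'⟩ := c'
  obtain ⟨a', b', d, e, h1, h2, h3, h4, h5⟩ := hs
  obtain ⟨i1, i2, i3, i4⟩ := hI
  simp only at h1 h2 h3 h4 h5 i1 i2 i3 i4
  subst i1
  generalize hra : tin A x h = ra at h1
  generalize hrb : u k = rb at h1
  cases h1 with
  | ini_bit f b a y =>
    simp only at i4
    obtain ⟨i4, i5, i6⟩ := i4
    subst i4
    have hlt := read_bit x hra
    simp only [Mv.go] at h2 h3
    refine ⟨if_self hra h4, by simp only [h2]; omega, by simp only [h3]; omega, ?_⟩
    simp only [h2, h3]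
    refine ⟨trivial, by simp, fun j hj => ?_⟩
    rw [h5 j]
    by_cases hjh : j = h
    · rw [if_pos hjh, hjh, i5]
      exact ⟨y, rfl⟩
    · rw [if_neg hjh]
      exact i6 j (by omega)
  | ini_end f a y =>
    simp only at i4
    obtain ⟨i4, i5, i6'⟩ := i4
    subst i4
    have i6'' : ∀ j, ∃ y' : A.Λ, j < h → u j = .oth (y', decide (j = 0), false) := by
      intro j
      by_cases hj : j < h
      · obtain ⟨y', hy'⟩ := i6' j hj
        exact ⟨y', fun _ => hy'⟩
      · exact ⟨y, fun h => absurd h hj⟩
    choose w i6 using i6''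
    have hge := read_bl x hra
    have hn : h = x.length := by omega
    simp only [Mv.go] at h2 h3
    refine ⟨if_self hra h4, by simp only [h2]; omega, by simp only [h3]; omega, ?_⟩
    simp only [h2, h3]
    refine ⟨trivial, Function.update w h y, SWS.Rch.ini _, fun j hj => ?_⟩
    rw [h5 j]
    by_cases hjh : j = h
    · rw [if_pos hjh, hjh, Function.update_self, i5]
      simp [fl, hn]
    · rw [if_neg hjh, Function.update_of_ne hjh, i6 j (by omega)]
      have : j ≠ x.length := by omega
      simp [fl, this]
  | ret_mv s a y r =>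
    simp only at i4
    obtain ⟨i4, w, i5, i6⟩ := i4
    have hk := i6 k i3
    rw [hrb] at hk
    unfold fl at hk
    simp only [Pool.Agent.H8.JS.Sym.oth.injEq, Prod.mk.injEq] at hk
    have hk0 : k ≠ 0 := by
      intro hk0
      rw [hk0] at hk
      simp at hk
    simp only [Mv.go] at h2 h3
    refine ⟨if_self hra h4, by simp only [h2]; omega, by simp only [h3]; omega, ?_⟩
    have hu := if_self hrb h5
    simp only [h2, h3, hu]
    exact ⟨by omega, w, i5, i6⟩
  | ret_go s z hz a y r =>
    simp only at i4
    obtain ⟨i4, w, i5, i6⟩ := i4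
    have hk := i6 k i3
    rw [hrb] at hk
    unfold fl at hk
    simp only [Pool.Agent.H8.JS.Sym.oth.injEq, Prod.mk.injEq] at hk
    have hk0 : k = 0 := by
      have := hk.2.1
      simpa using this.symm
    simp only [Mv.go] at h2 h3
    refine ⟨if_self hra h4, by simp only [h2]; omega, by simp only [h3]; omega, ?_⟩
    have hu := if_self hrb h5
    simp only [h2, h3, hu]
    refine ⟨i4, s, w, w, fun _ => z, i5, hz, fun j hj => by omega, rfl, fun j hj => by omega,
      fun j _ hj => i6 j hj⟩
  | ret_acc a b =>
    simp only at i4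
    obtain ⟨i4, w, i5, i6⟩ := i4
    simp only [Mv.go] at h2 h3
    exact ⟨if_self hra h4, by simp only [h2]; omega, by simp only [h3]; omega, w, i5⟩
  | fwd_mv z z' d a y y' l hd hδ =>
    simp only at i4
    obtain ⟨i4, s, w, w', zs, i5, i6, i7, i8, i9, i10⟩ := i4
    have hk := i10 k le_rfl i3
    rw [hrb] at hk
    unfold fl at hk
    simp only [Pool.Agent.H8.JS.Sym.oth.injEq, Prod.mk.injEq] at hk
    obtain ⟨hk1, hk2, hk3⟩ := hk
    have hkn : k ≠ x.length := by
      intro e
      rw [e] at hk3
      simp at hk3
    have hdg : d = dg x k := by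
      by_cases hk0 : k = 0
      · rw [hk2] at hd
        simp only [hk0, decide_true, if_true] at hd
        rw [hd, hk0]
        rfl
      · rw [hk2] at hd
        simp only [hk0, decide_false, Bool.false_eq_true, if_false] at hd
        rw [hd, i4, tin_lt x (by omega)] at hra
        have e : k - 1 + 1 = k := by omega
        rw [e] at hra
        simpa using hra.symm
    have hh' : h' = (k + 1) - 1 := by
      by_cases hk0 : k = 0
      · rw [hk2] at h2
        simp only [hk0, decide_true, if_true, Mv.go] at h2
        omega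
      · rw [hk2] at h2
        simp only [hk0, decide_false, Bool.false_eq_true, if_false, Mv.go] at h2
        omega
    simp only [Mv.go] at h3
    refine ⟨if_self hra h4, by simp only [hh']; omega, by simp only [h3]; omega, ?_⟩
    simp only [hh', h3]
    refine ⟨trivial, s, w, Function.update w' k y', Function.update zs (k + 1) z', i5, ?_, ?_, ?_, ?_,
      ?_⟩
    · rw [Function.update_of_ne (by omega)]
      exact i6
    · intro j hj
      by_cases hjk : j = k
      · rw [hjk, Function.update_self, Function.update_self, Function.update_of_ne (by omega), i8,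
          ← hk1, ← hdg]
        exact hδ
      · rw [Function.update_of_ne hjk, Function.update_of_ne (by omega),
          Function.update_of_ne (by omega)]
        exact i7 j (by omega)
    · rw [Function.update_self]
    · intro j hj
      rw [h5 j]
      by_cases hjk : j = k
      · rw [if_pos hjk, hjk, Function.update_self, hk2, hk3]
        rfl
      · rw [if_neg hjk, Function.update_of_ne hjk]
        exact i9 j (by omega)
    · intro j hj hj'
      rw [h5 j, if_neg (by omega)]
      exact i10 j (by omega) hj'
  | fwd_end z z' s' d a y y' l hd hδ hz1 =>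
    simp only at i4
    obtain ⟨i4, s, w, w', zs, i5, i6, i7, i8, i9, i10⟩ := i4
    have hk := i10 k le_rfl i3
    rw [hrb] at hk
    unfold fl at hk
    simp only [Pool.Agent.H8.JS.Sym.oth.injEq, Prod.mk.injEq] at hk
    obtain ⟨hk1, hk2, hk3⟩ := hk
    have hkn : k = x.length := by simpa using hk3.symm
    have hdg : d = dg x k := by
      by_cases hk0 : k = 0
      · rw [hk2] at hd
        simp only [hk0, decide_true, if_true] at hd
        rw [hd, hk0]
        rfl
      · rw [hk2] at hd
        simp only [hk0, decide_false, Bool.false_eq_true, if_false] at hd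
        rw [hd, i4, tin_lt x (by omega)] at hra
        have e : k - 1 + 1 = k := by omega
        rw [e] at hra
        simpa using hra.symm
    simp only [Mv.go] at h2 h3
    refine ⟨if_self hra h4, by simp only [h2]; omega, by simp only [h3]; omega, ?_⟩
    simp only [h2, h3]
    refine ⟨i4, Function.update w' k y', SWS.Rch.sw s w s' _ i5
      ⟨Function.update zs (k + 1) z', ?_, ?_, ?_⟩, ?_⟩
    · rw [Function.update_of_ne (by omega)]
      exact i6
    · intro j hj
      by_cases hjk : j = k
      · rw [hjk, Function.update_self, Function.update_self, Function.update_of_ne (by omega), i8,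
          ← hk1, ← hdg]
        exact hδ
      · rw [Function.update_of_ne hjk, Function.update_of_ne (by omega),
          Function.update_of_ne (by omega)]
        exact i7 j (by omega)
    · rw [← hkn, Function.update_self]
      exact hz1
    · intro j hj
      rw [h5 j]
      by_cases hjk : j = k
      · rw [if_pos hjk, hjk, Function.update_self, hk2, hk3]
        rfl
      · rw [if_neg hjk, Function.update_of_ne hjk]
        exact i9 j (by omega)

theorem inv_init (x : List Bool) : Inv x (sc (Pool.Agent.H8.JS.init (swM A) x)) := by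
  refine ⟨?_, Nat.zero_le _, Nat.zero_le _, ?_⟩
  · funext p
    rfl
  · exact ⟨rfl, rfl, fun j hj => absurd hj (Nat.not_lt_zero j)⟩

theorem inv_comp (x : List Bool) (l : ℕ) (c : ℕ → Cfg (swM A))
    (hc : Pool.Agent.H8.JS.IsComp (swM A) (Pool.Agent.H8.JS.init (swM A) x) l c) :
    ∀ i ≤ l, Inv x (sc (c i)) := by
  intro i
  induction i with
  | zero =>
    intro _
    rw [hc.1]
    exact inv_init x
  | succ i ih =>
    intro hi
    exact inv_step x _ _ (ih (by omega)) (stp_of (hc.2 i (by omega)))

theorem pf_SWA : T_SWA := by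
  intro A x
  constructor
  · intro l c hc j
    obtain ⟨-, h1, h2, -⟩ := inv_comp x l c hc l le_rfl
    change Fin 2 at j
    fin_cases j
    · exact Nat.lt_succ_of_le h1
    · exact Nat.lt_succ_of_le h2
  · rintro ⟨l, c, hc, hq⟩
    obtain ⟨-, -, -, h⟩ := inv_comp x l c hc l le_rfl
    have e : (sc (c l)).q = SwQ.acc := hq
    rw [e] at h
    exact h

end Pool.Agent.H8.CH
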