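import Pool.Agent.H8.CH.SwT

/-!
# Row SWB: the machine of a sweep system, completeness
-/

set_option autoImplicit false

namespace Pool.Agent.H8.CH

open Pool.Agent.H46.CH
open Pool.Agent.H8.JS (NTM Cfg Mv lang num)

theorem rtg_seq {α : Type*} {r : α → α → Prop} {a b : α} (h : Relation.ReflTransGen r a b) :
    ∃ (l : ℕ) (f : ℕ → α), f 0 = a ∧ f l = b ∧ ∀ i < l, r (f i) (f (i + 1)) := by
  induction h with
  | refl => exact ⟨0, fun _ => a, rfl, rfl, fun i hi => absurd hi (Nat.not_lt_zero i)⟩
  | @tail b c _ hbc ih =>
    obtain ⟨l, f, h0, hl, hf⟩ := ih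
    refine ⟨l + 1, fun i => if i ≤ l then f i else c, ?_, ?_, fun i hi => ?_⟩
    · simp [h0]
    · simp
    · by_cases h : i < l
      · have h1 : i ≤ l := h.le
        have h2 : i + 1 ≤ l := h
        simp only [h1, h2, if_true]
        exact hf i h
      · have h1 : i = l := by omega
        subst h1
        simp only [le_refl, if_true]
        rw [if_neg (by omega), hl]
        exact hbc

variable {A : SWS}

/-- the inscription of the tape `1` -/
def T1 (x : List Bool) (w : ℕ → A.Λ) (j : ℕ) : SwS A :=
  if j ≤ x.length then .oth (w j, decide (j = 0), decide (j = x.length)) else .bl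

theorem T1_le (x : List Bool) (w : ℕ → A.Λ) {j : ℕ} (h : j ≤ x.length) :
    T1 x w j = .oth (w j, decide (j = 0), decide (j = x.length)) := if_pos h

theorem T1_congr (x : List Bool) {w w' : ℕ → A.Λ} (h : ∀ j ≤ x.length, w j = w' j) :
    T1 x w = T1 x w' := by
  funext j
  unfold T1
  split_ifs with hj
  · rw [h j hj]
  · rfl

theorem T1_upd (x : List Bool) {w w' : ℕ → A.Λ} {k : ℕ} (hk : k ≤ x.length)
    (h : ∀ j, j ≠ k → w' j = w j) (p : ℕ) : T1 x w' p =
      if p = k then .oth (w' k, decide (k = 0), decide (k = x.length)) else T1 x w p := by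
  split_ifs with hp
  · rw [hp, T1_le x w' hk]
  · unfold T1
    rw [h p hp]

/-- reachable configurations -/
abbrev RT (c c' : SC A) : Prop := Relation.ReflTransGen SC.Stp c c'

/-- the configuration in front of a sweep -/
def cR (x : List Bool) (s : A.S) (i : ℕ) (w : ℕ → A.Λ) : SC A :=
  ⟨.ret s, i - 1, i, tin A x, T1 x w⟩

/-- the first configuration -/
def cI (x : List Bool) : SC A := ⟨.ini true, 0, 0, tin A x, fun _ => .bl⟩

theorem same {t : ℕ → SwS A} {h : ℕ} (p : ℕ) : t p = if p = h then t h else t p := by
  split_ifs with hp
  · rw [hp]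
  · rfl

theorem rt_init (x : List Bool) (w : ℕ → A.Λ) : RT (cI x) (cR x A.s₀ x.length w) := by
  have h1 : ∀ i ≤ x.length, RT (cI (A := A) x) ⟨.ini (decide (i = 0)), i, i, tin A x,
      fun j => if j < i then .oth (w j, decide (j = 0), false) else .bl⟩ := by
    intro i
    induction i with
    | zero =>
      intro _
      have : (fun j => if j < 0 then (Pool.Agent.H8.JS.Sym.oth (w j, decide (j = 0), false) : SwS A)
          else .bl) = fun _ => .bl := by
        funext j
        exact if_neg (Nat.not_lt_zero j)
      rw [this]
      exact Relation.ReflTransGen.refl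
    | succ i ih =>
      intro hi
      refine (ih (by omega)).tail ?_
      refine ⟨.bit (dg x (i + 1)), .oth (w i, decide (i = 0), false), .R, .R, ?_, rfl, rfl, ?_, ?_⟩
      · simp only
        rw [tin_lt x (by omega)]
        have e : decide (i + 1 = 0) = false := by simp
        rw [e]
        exact SwE.ini_bit _ _ _ _
      · intro p
        simp only
        rw [← tin_lt (A := A) x (show i < x.length by omega)]
        exact same p
      · intro p
        simp only
        by_cases hp : p = i
        · rw [if_pos (by omega), if_pos hp, hp]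
        · rw [if_neg hp]
          by_cases hp' : p < i
          · rw [if_pos (by omega), if_pos hp']
          · rw [if_neg (by omega), if_neg hp']
  refine (h1 x.length le_rfl).tail ?_
  refine ⟨.bl, .oth (w x.length, decide (x.length = 0), true), .L, .S, ?_, rfl, rfl, ?_, ?_⟩
  · simp only
    rw [tin_ge x le_rfl]
    exact SwE.ini_end _ _ _
  · intro p
    simp only
    rw [← tin_ge (A := A) x le_rfl]
    exact same p
  · intro p
    simp only [cR]
    by_cases hp : p = x.length
    · rw [if_pos hp, hp, T1_le x w le_rfl]
      simp
    · rw [if_neg hp]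
      by_cases hp' : p < x.length
      · rw [if_pos hp', T1_le x w hp'.le]
        simp [hp]
      · rw [if_neg hp']
        unfold T1
        rw [if_neg (by omega)]

theorem rt_ret (x : List Bool) (s : A.S) (w : ℕ → A.Λ) :
    ∀ i ≤ x.length, RT (cR x s i w) (cR x s 0 w) := by
  intro i
  induction i with
  | zero => intro _; exact Relation.ReflTransGen.refl
  | succ i ih =>
    intro hi
    refine Relation.ReflTransGen.head ?_ (ih (by omega))
    refine ⟨tin A x (i + 1 - 1), T1 x w (i + 1), .L, .L, ?_, rfl, rfl, same, same⟩
    simp only [cR]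
    rw [T1_le x w hi]
    have e : decide (i + 1 = 0) = false := by simp
    rw [e]
    exact SwE.ret_mv _ _ _ _

theorem rt_sweep (x : List Bool) (s s' : A.S) (w w' : ℕ → A.Λ) (h : A.Sw x s w s' w') :
    RT (cR x s 0 w) (cR x s' x.length w') := by
  obtain ⟨z, h0, h1, h2⟩ := h
  have hd : ∀ i ≤ x.length, (if decide (i = 0) = true then dg x i = true
      else tin A x (i - 1) = .bit (dg x i)) := by
    intro i hi
    by_cases h : i = 0
    · subst h
      simp [dg]
    · simp only [h, decide_false, Bool.false_eq_true, if_false]
      rw [tin_lt x (by omega)]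
      have e : i - 1 + 1 = i := by omega
      rw [e]
  have h3 : ∀ i ≤ x.length, RT (cR x s 0 w) ⟨.fwd (z i), i - 1, i, tin A x,
      T1 x fun j => if j < i then w' j else w j⟩ := by
    intro i
    induction i with
    | zero =>
      intro _
      have : (fun j => if j < 0 then w' j else w j) = w := by
        funext j
        exact if_neg (Nat.not_lt_zero j)
      rw [this]
      refine Relation.ReflTransGen.single ?_
      refine ⟨tin A x 0, T1 x w 0, .S, .S, ?_, rfl, rfl, same, same⟩
      simp only [cR]
      rw [T1_le x w (Nat.zero_le _)]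
      have e : decide (0 = 0) = true := by simp
      rw [e]
      exact SwE.ret_go _ _ h0 _ _ _
    | succ i ih =>
      intro hi
      refine (ih (by omega)).tail ?_
      refine ⟨tin A x (i - 1), .oth (w' i, decide (i = 0), false),
        if decide (i = 0) = true then .S else .R, .R, ?_, ?_, rfl, same, ?_⟩
      · simp only
        rw [T1_le x _ (show i ≤ x.length by omega)]
        have e : decide (i = x.length) = false := by
          simp only [decide_eq_false_iff_not]
          omega
        rw [e, if_neg (Nat.lt_irrefl i)]
        exact SwE.fwd_mv _ _ (dg x i) _ _ _ _ (hd i (by omega)) (h1 i (by omega))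
      · simp only
        by_cases h : i = 0
        · simp [h, Mv.go]
        · simp only [h, decide_false, Bool.false_eq_true, if_false, Mv.go]
          omega
      · intro p
        have e : decide (i = x.length) = false := by
          simp only [decide_eq_false_iff_not]
          omega
        have := T1_upd x (A := A) (w := fun j => if j < i then w' j else w j)
          (w' := fun j => if j < i + 1 then w' j else w j) (k := i) (by omega) (fun j hj => by
            by_cases h : j < i
            · rw [if_pos h, if_pos (by omega)]
            · rw [if_neg h, if_neg (by omega)]) p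
        simp only
        rw [this, e, if_pos (Nat.lt_succ_self i)]
  refine (h3 x.length le_rfl).tail ?_
  refine ⟨tin A x (x.length - 1), .oth (w' x.length, decide (x.length = 0), true), .S, .S, ?_, rfl,
    rfl, same, ?_⟩
  · simp only [cR]
    rw [T1_le x _ le_rfl, if_neg (Nat.lt_irrefl _)]
    have e : decide (x.length = x.length) = true := by simp
    rw [e]
    exact SwE.fwd_end _ _ _ (dg x x.length) _ _ _ _ (hd _ le_rfl) (h1 _ (by omega)) h2
  · intro p
    simp only [cR]
    rw [T1_congr x (A := A) (w := w') (w' := fun j => if j < x.length + 1 then w' j else w j)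
      (fun j hj => (if_pos (by omega)).symm)]
    have e : decide (x.length = x.length) = true := by simp
    have := T1_upd x (A := A) (w := fun j => if j < x.length then w' j else w j)
      (w' := fun j => if j < x.length + 1 then w' j else w j) (k := x.length) le_rfl
      (fun j hj => by
        by_cases h : j < x.length
        · rw [if_pos h, if_pos (by omega)]
        · rw [if_neg h, if_neg (by omega)]) p
    rw [this, e, if_pos (Nat.lt_succ_self _)]

theorem rt_rch (x : List Bool) (s : A.S) (w : ℕ → A.Λ) (h : A.Rch x s w) :
    RT (cI x) (cR x s x.length w) := by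
  induction h with
  | ini w => exact rt_init x w
  | sw s w s' w' h h' ih =>
    exact (ih.trans (rt_ret x s w _ le_rfl)).trans (rt_sweep x s s' w w' h')

theorem cI_cfg (x : List Bool) : (cI x).cfg = Pool.Agent.H8.JS.init (swM A) x := by
  refine Cfg.ext rfl (funext fun j => ?_) (funext fun j => ?_)
  · change Fin 2 at j
    fin_cases j <;> rfl
  · change Fin 2 at j
    fin_cases j <;> rfl

theorem pf_SWB : T_SWB := by
  rintro A x ⟨w, hw⟩
  have h1 := rt_rch x A.s₁ w hw
  have h2 : RT (cI x) (⟨.acc, x.length - 1, x.length, tin A x, T1 x w⟩ : SC A) :=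
    h1.tail ⟨_, _, .S, .S, SwE.ret_acc _ _, rfl, rfl, same, same⟩
  obtain ⟨l, f, h0, hl, hf⟩ := rtg_seq h2
  refine ⟨l, fun i => (f i).cfg, ⟨?_, fun i hi => of_stp (hf i hi)⟩, ?_⟩
  · simp only
    rw [h0]
    exact cI_cfg x
  · simp only
    rw [hl]
    rfl

end Pool.Agent.H8.CH
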