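import Pool.Agent.H46.CH.UT

/-!
# Row UM: upper bound with counting monadic second-order logic
-/

set_option autoImplicit false

namespace Pool.Agent.H8.CH

open Classical Pool.Agent.H8.VR Pool.Agent.H69.VR Pool.Agent.H46.CH
open Pool.Agent.H8.JS (NTM Cfg Mv lang num)

theorem pf_UM (hUG : T_UG) : T_UM := by
  intro N Q _ _ G hL hT m s₀ Ψ φ hΨ
  rw [specM_eq N Q G m s₀ Ψ hΨ φ]
  have := MS.finT Q (Ψ.clo Ψ.vb)
  refine hUG (Option (N × (Ψ.clo Ψ.vb).T Q)) Q (ext G s₀ (Ψ.clo Ψ.vb)) ?_ ?_ m none φ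
  · intro y hy y' hy' h
    obtain ⟨o, ho, a, b, -, k2, -⟩ := mem_ops.1 hy
    obtain ⟨o', ho', a', b', -, -, -, -, -, -, -, k8⟩ := mem_ops.1 hy'
    rw [k2] at h
    rcases k8 with k8 | ⟨k8, -⟩
    · rw [k8] at h
      simp only [Option.some.injEq, Prod.mk.injEq] at h
      exact hL o ho o' ho' h.1
    · rw [k8] at h
      simp at h
  · intro y hy
    obtain ⟨o, ho, a, b, -, -, -, -, -, -, k, -⟩ := mem_ops.1 hy
    rw [k]
    exact hT o ho

end Pool.Agent.H8.CH
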