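import Pool.Agent.H46.CH.UT

/-!
# Row UP: the upper bound, assembled
-/

set_option autoImplicit false

namespace Pool.Agent.H8.CH

open Classical Pool.Agent.H8.VR Pool.Agent.H69.VR Pool.Agent.H46.CH
open Pool.Agent.H8.JS (NTM Cfg Mv lang num)

theorem pair_pos {x y : ℕ} (hx : 0 < x) : 0 < Nat.pair x y :=
  lt_of_lt_of_le hx (Nat.left_le_pair x y)

theorem linG_lin (k m : ℕ) : GLin (linG k m) := by
  intro o ho o' ho'
  obtain ⟨x, -, rfl⟩ := List.mem_map.1 ho
  obtain ⟨x', -, rfl⟩ := List.mem_map.1 ho'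
  simp

theorem linG_triv (k m : ℕ) : GTriv (linG k m) := by
  intro o ho x y hx hy
  obtain ⟨x, -, rfl⟩ := List.mem_map.1 ho
  exact pair_pos hx

theorem pbG_lin : GLin pbG := by
  intro o ho o' ho'
  simp only [pbG, List.mem_cons, List.not_mem_nil, or_false] at ho ho'
  rcases ho with rfl | rfl <;> rcases ho' with rfl | rfl <;> simp

theorem pbG_triv : GTriv pbG := by
  intro o ho x y hx hy
  simp only [pbG, List.mem_cons, List.not_mem_nil, or_false] at ho
  rcases ho with rfl | rfl <;> exact pair_pos hx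

theorem pf_UP (hUG : T_UG) (hUM : T_UM) (hLG : T_LG) (hA : T_PGA) (hB : T_PGB) : T_UP := by
  refine ⟨fun k m Ψ φ hΨ => ?_, fun φ => ?_⟩
  · rw [hLG k m Ψ φ]
    exact hUM Bool (Fin k) (linG k m) (linG_lin k m) (linG_triv k m) m true Ψ φ hΨ
  · have e : specPB φ = specG pbG 1 true φ := by
      ext n
      refine and_congr_right fun hn => exists_congr fun P => exists_congr fun R => ?_
      have : Nonempty (Fin n) := ⟨⟨0, hn⟩⟩
      exact and_congr_left fun _ => ⟨fun h => hA (Fin n) P R h, fun h => hB (Fin n) P R h⟩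
    rw [e]
    exact hUG Bool (Fin 3) pbG pbG_lin pbG_triv 1 true φ

end Pool.Agent.H8.CH
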