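import Pool.Agent.H46.CH.UT

/-!
# Tools for recognised relations
-/

set_option autoImplicit false

namespace Pool.Agent.H8.CH

open Classical Pool.Agent.H8.VR Pool.Agent.H69.VR Pool.Agent.H46.CH
open Pool.Agent.H8.JS (NTM Cfg Mv lang num)

/-- the index type of the vectors -/
abbrev BI (Q L T C : Type) : Type := Ix Q L T C ⊕ (Ix Q L T C × T) ⊕ Ix Q L T C ⊕ Unit

theorem rg_congr {ι : Type} {P P' : (ι → ℕ) → Prop} (h : ∀ v, P v ↔ P' v) (hP : Rg P) : Rg P' := by
  have : P = P' := funext fun v => propext (h v)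
  rw [← this]
  exact hP

theorem fs_map {ι κ : Type} [Fintype ι] [Fintype κ] (f : κ → ι) (hf : Function.Injective f)
    (P : κ → Prop) (v : ι → ℕ) :
    fs P (fun k => v (f k)) = fs (fun i => ∃ k, P k ∧ f k = i) v := by
  unfold fs
  refine (Finset.sum_image (f := v) (g := f) (s := Finset.univ.filter P)
    fun a _ b _ h => hf h).symm.trans (Finset.sum_congr ?_ fun _ _ => rfl)
  ext i
  simp only [Finset.mem_filter, Finset.mem_univ, true_and, Finset.mem_image]

theorem fs_true {ι : Type} [Fintype ι] (v : ι → ℕ) : fs (fun _ => True) v = ∑ i, v i := by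
  unfold fs
  rw [Finset.sum_filter]
  simp

theorem rg_and {ι : Type} (hRG : T_RG) {P P' : (ι → ℕ) → Prop} (h : Rg P) (h' : Rg P') :
    Rg (fun v => P v ∧ P' v) := hRG.2.1 ι P P' h h'

theorem rg_const {ι : Type} [Fintype ι] (hRH : T_RH) (i : ι) (b : ℕ) :
    Rg (fun v : ι → ℕ => v i = b) := by
  refine rg_congr (fun v => ?_) (hRH.2.2.1 ι i (fun _ => False) b)
  have : fs (fun _ => False) v = 0 := by
    unfold fs
    rw [Finset.sum_filter]
    simp
  rw [this, zero_add]

/-- an equation with a sum over an injective family -/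
theorem rg_sum {ι κ : Type} [Fintype ι] [Fintype κ] (hRH : T_RH) (i : ι) (f : κ → ι)
    (hf : Function.Injective f) (P : κ → Prop) (b : ℕ) :
    Rg (fun v : ι → ℕ => v i = fs P (fun k => v (f k)) + b) := by
  refine rg_congr (fun v => ?_) (hRH.2.2.1 ι i (fun i => ∃ k, P k ∧ f k = i) b)
  rw [fs_map f hf P v]

/-- the class of a sum over an injective family -/
theorem rg_cp {ι κ C : Type} [Fintype ι] [Fintype κ] [Finite C] (K : Cp C) (hRH : T_RH) (f : κ → ι)
    (hf : Function.Injective f) (P : κ → Prop) (u : C) :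
    Rg (fun v : ι → ℕ => K.cp (fs P (fun k => v (f k))) = u) := by
  refine rg_congr (fun v => ?_) (hRH.2.2.2.1 ι C K (fun i => ∃ k, P k ∧ f k = i) u)
  rw [fs_map f hf P v]

/-- an implication with a constant conclusion -/
theorem rg_imp {ι : Type} (hRG : T_RG) (hRH : T_RH) (i : ι) (p : Prop) :
    Rg (fun v : ι → ℕ => v i ≠ 0 → p) := by
  by_cases hp : p
  · exact rg_congr (fun v => by simp [hp]) (hRG.1 ι True)
  · exact rg_congr (fun v => by simp [hp]) (hRH.2.2.2.2 ι i)

end Pool.Agent.H8.CH
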