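import Pool.Agent.H46.CH.UT
import Pool.Agent.H33.VR.Cf

/-!
# Insertion of one element, with the change of the colours
-/

set_option autoImplicit false

namespace Pool.Agent.H8.CH

open Classical Pool.Agent.H8.VR Pool.Agent.H69.VR Pool.Agent.H46.CH

theorem fs_fs {ι κ : Type} [Fintype ι] [Fintype κ] (P : κ → Prop) (h : ι → κ) (m : ι → ℕ) :
    fs P (fun ρ => fs (fun p => h p = ρ) m) = fs (fun p => P (h p)) m := by
  unfold fs
  rw [Finset.sum_filter]
  have e : ∀ ρ : κ, (if P ρ then ∑ p with h p = ρ, m p else 0) =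
      ∑ p with h p = ρ, if P (h p) then m p else 0 := by
    intro ρ
    by_cases hρ : P ρ
    · rw [if_pos hρ]
      refine Finset.sum_congr rfl fun p hp => ?_
      rw [(Finset.mem_filter.1 hp).2, if_pos hρ]
    · rw [if_neg hρ]
      refine (Finset.sum_eq_zero fun p hp => ?_).symm
      rw [(Finset.mem_filter.1 hp).2, if_neg hρ]
  rw [Finset.sum_congr rfl fun ρ _ => e ρ,
    Finset.sum_fiberwise Finset.univ h (fun p => if P (h p) then m p else 0), Finset.sum_filter]

theorem fs_ind {κ : Type} [Fintype κ] (P : κ → Prop) (k : κ) :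
    fs P (fun ρ => ind (ρ = k)) = ind (P k) := by
  unfold fs ind
  rw [Finset.sum_ite_eq' _ k (fun _ => 1)]
  simp only [Finset.mem_filter, Finset.mem_univ, true_and]

section
variable {N Q L T O C : Type} [Fintype Q] [Fintype L] [Fintype T] [Fintype C]

theorem fn_step (S : Sg N Q L T O) (K : Cp C) (o : O) (τ : Ix Q L T C) (m : Ix Q L T C × T → ℕ)
    (a' d' : Ix Q L T C → ℕ) (ha : ∀ σ, a' σ = fs (fun p => up K τ p = σ) m)
    (hd : ∀ σ, d' σ = ind (σ = nw S K τ m)) (c : Ix Q L T C → ℕ) :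
    Fn S o a' d' c ↔ ∀ σ, c σ = fs (fun p => (S.f o p.1.1, (up K τ p).2) = σ) m +
      ind ((S.g o τ.1, (nw S K τ m).2) = σ) := by
  have e1 : ∀ σ, fs (fun ρ => (S.f o ρ.1, ρ.2) = σ) a' =
      fs (fun p => (S.f o p.1.1, (up K τ p).2) = σ) m := by
    intro σ
    rw [funext ha]
    exact fs_fs (fun ρ : Ix Q L T C => (S.f o ρ.1, ρ.2) = σ) (up K τ) m
  have e2 : ∀ σ, fs (fun ρ => (S.g o ρ.1, ρ.2) = σ) d' = ind ((S.g o τ.1, (nw S K τ m).2) = σ) := by
    intro σ
    rw [funext hd]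
    exact fs_ind (fun ρ : Ix Q L T C => (S.g o ρ.1, ρ.2) = σ) (nw S K τ m)
  unfold Fn
  exact forall_congr' fun σ => by rw [e1, e2]

end

end Pool.Agent.H8.CH
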