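import Pool.Agent.H46.CH.UT
import Pool.Agent.H8.VR.All

/-!
# Row N2: composition systems with the sorts and colours of the grammar
-/

set_option autoImplicit false

namespace Pool.Agent.H8.CH

open Classical Pool.Agent.H8.VR Pool.Agent.H69.VR Pool.Agent.H46.CH Pool.Agent.H69.Sp Pool.Agent.H69.Mt

theorem pf_n2 (hEV : T_EV) (hGE : T_GE) (hSC : T_SC) (hCL : T_CL) (hLO : T_LO) (hOK : T_OK)
    (hCP : T_CP) : T_N2 := by
  intro N Q _ _ G m s₀ φ
  obtain ⟨C, hC, K, hK, hF⟩ := hCP φ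
  have hfin : Finite φ.clo.Bt := (hGE φ.clo).2.1
  let hX : Fintype φ.clo.Bt := Fintype.ofFinite _
  set B := max φ.bd m with hB
  have hmB : m ≤ B := le_max_right _ _
  have hbB : φ.bd ≤ B := le_max_left _ _
  refine ⟨Lab B φ.clo.Bt, Ty B, C, Fin G.ops.length, Fintype.ofFinite _, inferInstance,
    inferInstance, hC, inferInstance, inferInstance, G.sg m B φ.clo.Bt, K,
    fun σ => OkF K φ.clo id σ ∧ ev1 φ.clo id σ.1,
    fun o => ⟨G.ops.get o, List.get_mem _ _, rfl, rfl, rfl, rfl, rfl, rfl⟩, fun n => ?_⟩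
  refine and_congr_right fun hn => ?_
  have : Nonempty (Fin n) := ⟨⟨0, hn⟩⟩
  constructor
  · rintro ⟨P, R, ⟨c, hc⟩, hφ⟩
    obtain ⟨g, hg⟩ := (hGE φ.clo).1 (Fin n) (fun i a => i < B ∧ P i a) (fun i a b => i < B ∧ R i a b)
    set lam : Fin n → Lab B φ.clo.Bt := fun a =>
      (fun i => decide (P i a), fun i => decide (R i a a), g a) with hlam
    set th : Fin n → Fin n → Ty B := fun a b =>
      (fun i => decide (R i a b), fun i => decide (R i b a)) with hth
    have hPf : PfL lam = fun i a => i < B ∧ P i a := by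
      funext i a
      simp only [PfL, bit, hlam, decide_eq_true_eq, exists_prop]
    have hRf : RfL lam th = fun i a b => i < B ∧ R i a b := by
      funext i a b
      by_cases hab : a = b
      · subst hab
        rw [eq_iff_iff, RfL_self]
        simp only [bit, hlam, decide_eq_true_eq, exists_prop]
      · rw [eq_iff_iff, RfL_ne _ _ _ hab]
        simp only [bit, hth, decide_eq_true_eq, exists_prop]
    have hS : Sym (G.sg m B φ.clo.Bt) th := fun a b _ => rfl
    rw [← hPf, ← hRf] at hg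
    refine ⟨lam, th, c, hS, (gen_iff lam th hS s₀ _ c).1 (gen_congr ?_ ?_ hc), fun a => ⟨?_, ?_⟩⟩
    · intro i hi a
      rw [hPf]
      exact ⟨fun h => ⟨by omega, h⟩, fun h => h.2⟩
    · intro i hi a b
      rw [hRf]
      exact ⟨fun h => ⟨by omega, h⟩, fun h => h.2⟩
    · exact (hOK B φ.clo.Bt (Fin n) C K φ.clo id lam th hK (fun a b _ => rfl)).1 hg a
    · have h1 : ∀ v : Bool → Fin n, φ.Sat (PfL lam) (RfL lam th) v := by
        intro v
        refine (hSC φ (Fin n) P _ R _ ?_ ?_ v).1 (hφ v)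
        · intro i hi a
          rw [hPf]
          exact ⟨fun h => ⟨by omega, h⟩, fun h => h.2⟩
        · intro i hi a b
          rw [hRf]
          exact ⟨fun h => ⟨by omega, h⟩, fun h => h.2⟩
      have h2 := (hCL φ (Fin n) (PfL lam) (RfL lam th)).1.1 h1 a
      rw [hEV φ.clo (Fin n) _ _ g hg] at h2
      exact (hLO B φ.clo.Bt (Fin n) φ.clo id lam th false a a).2.1 h2
  · rintro ⟨lam, th, c, hS, hG, hOk⟩
    refine ⟨PfL lam, RfL lam th, ⟨c, (gen_iff lam th hS s₀ _ c).2 hG⟩, ?_⟩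
    have hg : φ.clo.Good (PfL lam) (RfL lam th) (fun a => id (lam a).2.2) :=
      (hOK B φ.clo.Bt (Fin n) C K φ.clo id lam th hK (fun a b h => hS a b h)).2 fun a => (hOk a).1
    refine (hCL φ (Fin n) (PfL lam) (RfL lam th)).1.2 fun a => ?_
    rw [hEV φ.clo (Fin n) _ _ _ hg]
    exact (hLO B φ.clo.Bt (Fin n) φ.clo id lam th false a a).2.2 (hOk a).2

theorem pf_N2 : T_N2 :=
  pf_n2 Pool.Agent.H19.VR.pf_ev pf_GE Pool.Agent.H19.VR.pf_sc Pool.Agent.H48.VR.CL.cl
    Pool.Agent.H59.VR.pf_LO (pf_ok Pool.Agent.H59.VR.pf_LO) Pool.Agent.H19.VR.pf_cp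

end Pool.Agent.H8.CH
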