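import Pool.Agent.H46.CH.UT

/-!
# Tools for the machines of sweep systems
-/

set_option autoImplicit false

namespace Pool.Agent.H8.CH

open Pool.Agent.H46.CH
open Pool.Agent.H8.JS (NTM Cfg Mv lang num)

variable {A : SWS}

/-- the input tape -/
def tin (A : SWS) (x : List Bool) (p : ℕ) : SwS A :=
  match x[p]? with
  | some b => .bit b
  | none => .bl

theorem tin_lt (x : List Bool) {p : ℕ} (h : p < x.length) : tin A x p = .bit (dg x (p + 1)) := by
  unfold tin dg
  rw [List.getElem?_eq_getElem h]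
  simp only [Nat.add_sub_cancel, Nat.add_one_ne_zero, if_false]
  rw [List.getD_eq_getElem _ _ h]

theorem tin_ge (x : List Bool) {p : ℕ} (h : x.length ≤ p) : tin A x p = .bl := by
  unfold tin
  rw [List.getElem?_eq_none h]

/-- the transitions, without vectors -/
inductive SwE (A : SWS) : SwQ A → SwS A → SwS A → SwQ A → SwS A → SwS A → Mv → Mv → Prop
  | ini_bit (f b : Bool) (a : SwS A) (y : A.Λ) :
      SwE A (.ini f) (.bit b) a (.ini false) (.bit b) (.oth (y, f, false)) .R .R
  | ini_end (f : Bool) (a : SwS A) (y : A.Λ) :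
      SwE A (.ini f) .bl a (.ret A.s₀) .bl (.oth (y, f, true)) .L .S
  | ret_mv (s : A.S) (a : SwS A) (y : A.Λ) (r : Bool) :
      SwE A (.ret s) a (.oth (y, false, r)) (.ret s) a (.oth (y, false, r)) .L .L
  | ret_go (s : A.S) (z : A.Z) (hz : A.z₀ s z) (a : SwS A) (y : A.Λ) (r : Bool) :
      SwE A (.ret s) a (.oth (y, true, r)) (.fwd z) a (.oth (y, true, r)) .S .S
  | ret_acc (a b : SwS A) : SwE A (.ret A.s₁) a b .acc a b .S .S
  | fwd_mv (z z' : A.Z) (d : Bool) (a : SwS A) (y y' : A.Λ) (l : Bool)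
      (hd : if l then d = true else a = .bit d) (h : A.δ z d y y' z') :
      SwE A (.fwd z) a (.oth (y, l, false)) (.fwd z') a (.oth (y', l, false))
        (if l then .S else .R) .R
  | fwd_end (z z' : A.Z) (s : A.S) (d : Bool) (a : SwS A) (y y' : A.Λ) (l : Bool)
      (hd : if l then d = true else a = .bit d) (h : A.δ z d y y' z') (h' : A.z₁ z' s) :
      SwE A (.fwd z) a (.oth (y, l, true)) (.ret s) a (.oth (y', l, true)) .S .S

theorem vec2 {α : Type} (v : Fin 2 → α) : ![v 0, v 1] = v := by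
  funext j
  fin_cases j <;> rfl

theorem swD_iff (q : SwQ A) (r : Fin 2 → SwS A) (q' : SwQ A) (w : Fin 2 → SwS A)
    (m : Fin 2 → Mv) : SwD A q r q' w m ↔ SwE A q (r 0) (r 1) q' (w 0) (w 1) (m 0) (m 1) := by
  constructor
  · intro h
    cases h with
    | ini_bit f b a y => exact SwE.ini_bit f b a y
    | ini_end f a y => exact SwE.ini_end f a y
    | ret_mv s a y r => exact SwE.ret_mv s a y r
    | ret_go s z hz a y r => exact SwE.ret_go s z hz a y r
    | ret_acc a b => exact SwE.ret_acc a b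
    | fwd_mv z z' d a y y' l hd h => exact SwE.fwd_mv z z' d a y y' l hd h
    | fwd_end z z' s d a y y' l hd h h' => exact SwE.fwd_end z z' s d a y y' l hd h h'
  · intro h
    rw [← vec2 r, ← vec2 w, ← vec2 m]
    generalize r 0 = r0 at h ⊢
    generalize r 1 = r1 at h ⊢
    generalize w 0 = w0 at h ⊢
    generalize w 1 = w1 at h ⊢
    generalize m 0 = m0 at h ⊢
    generalize m 1 = m1 at h ⊢
    cases h with
    | ini_bit f b a y => exact SwD.ini_bit f b _ y
    | ini_end f a y => exact SwD.ini_end f _ y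
    | ret_mv s a y r => exact SwD.ret_mv s _ y r
    | ret_go s z hz a y r => exact SwD.ret_go s z hz _ y r
    | ret_acc a b => exact SwD.ret_acc _ _
    | fwd_mv z z' d a y y' l hd h => exact SwD.fwd_mv z z' d _ y y' l hd h
    | fwd_end z z' s d a y y' l hd h h' => exact SwD.fwd_end z z' s d _ y y' l hd h h'

/-- a configuration without vectors -/
structure SC (A : SWS) where
  q : SwQ A
  h : ℕ
  k : ℕ
  t : ℕ → SwS A
  u : ℕ → SwS A

/-- the configuration -/
def SC.cfg (c : SC A) : Cfg (swM A) where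
  q := c.q
  hd := ![c.h, c.k]
  tp := ![c.t, c.u]

/-- the configuration -/
def sc (c : Cfg (swM A)) : SC A where
  q := c.q
  h := c.hd (0 : Fin 2)
  k := c.hd (1 : Fin 2)
  t := c.tp (0 : Fin 2)
  u := c.tp (1 : Fin 2)

/-- one step -/
def SC.Stp (c c' : SC A) : Prop :=
  ∃ (a' b' : SwS A) (d e : Mv), SwE A c.q (c.t c.h) (c.u c.k) c'.q a' b' d e ∧
    c'.h = d.go c.h ∧ c'.k = e.go c.k ∧
    (∀ p, c'.t p = if p = c.h then a' else c.t p) ∧ ∀ p, c'.u p = if p = c.k then b' else c.u p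

theorem stp_of {c c' : Cfg (swM A)} (h : Pool.Agent.H8.JS.Step (swM A) c c') :
    (sc c).Stp (sc c') := by
  obtain ⟨a', d, hδ, hh, ht⟩ := h
  have h1 := (swD_iff _ _ _ _ _).1 hδ
  exact ⟨_, _, _, _, h1, hh (0 : Fin 2), hh (1 : Fin 2), ht (0 : Fin 2), ht (1 : Fin 2)⟩

theorem of_stp {c c' : SC A} (h : c.Stp c') : Pool.Agent.H8.JS.Step (swM A) c.cfg c'.cfg := by
  obtain ⟨a', b', d, e, h1, h2, h3, h4, h5⟩ := h
  refine ⟨![a', b'], ![d, e], (swD_iff _ _ _ _ _).2 h1, fun j => ?_, fun j => ?_⟩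
  · change Fin 2 at j
    fin_cases j
    · exact h2
    · exact h3
  · change Fin 2 at j
    fin_cases j
    · exact h4
    · exact h5

end Pool.Agent.H8.CH
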